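import Pool.Agent.W887.LE.Model

/-!
# The posets are lattices, interval orders and N-free
-/

set_option linter.unusedSectionVars false

namespace Pool.Agent.W887.LE

open Finset Pool.Agent.H549R2.Convex

section Abstract

variable {α : Type} {N : ℕ} (l r : α → ℕ)

/-- the relation of an interval order with markers -/
def RR (x y : Fin (N + 1) ⊕ α) : Prop := (iv l r x).2 < (iv l r y).1

variable {l r}

theorem cov_inr (hr : ∀ a, r a < N) {b : α} {c : Fin (N + 1) ⊕ α} (h : Cov (RR l r) (.inr b) c) :
    c = .inl ⟨r b + 1, by have := hr b; omega⟩ := by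
  obtain ⟨h1, h2⟩ := h
  have h3 := h2 (.inl ⟨r b + 1, by have := hr b; omega⟩)
  rcases c with s | a
  · simp only [RR, iv] at h1 h3
    congr 1
    apply Fin.ext
    simp only
    by_contra hne
    exact h3 ⟨by omega, by omega⟩
  · simp only [RR, iv] at h1 h3
    exact absurd ⟨by omega, by omega⟩ h3

theorem cov_to_inr (hr : ∀ a, r a < N) (hlr : ∀ a, l a ≤ r a) {c : α} {a : Fin (N + 1) ⊕ α}
    (h : Cov (RR l r) a (.inr c)) :
    a = .inl ⟨l c, by have := hr c; have := hlr c; omega⟩ := by
  obtain ⟨h1, h2⟩ := h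
  have h3 := h2 (.inl ⟨l c, by have := hr c; have := hlr c; omega⟩)
  rcases a with s | b
  · simp only [RR, iv] at h1 h3
    congr 1
    apply Fin.ext
    simp only
    by_contra hne
    exact h3 ⟨by omega, by omega⟩
  · simp only [RR, iv] at h1 h3
    exact absurd ⟨by omega, by omega⟩ h3

theorem cov_inl (hfill : ∀ t < N, ∃ a, l a = t ∧ r a = t) {t s : Fin (N + 1)} :
    ¬ Cov (RR l r) (.inl t) (.inl s) := by
  rintro ⟨h1, h2⟩
  simp only [RR, iv] at h1
  obtain ⟨a, ha1, ha2⟩ := hfill t.val (by have := s.2; omega)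
  apply h2 (.inr a)
  simp only [RR, iv]
  constructor <;> omega

theorem nfree_RR (hr : ∀ a, r a < N) (hlr : ∀ a, l a ≤ r a)
    (hfill : ∀ t < N, ∃ a, l a = t ∧ r a = t) : NFree (RR (N := N) l r) := by
  intro a b c d hac hbc hbd
  rcases b with t | b
  · rcases c with s | c
    · exact absurd hbc (cov_inl hfill)
    · left
      rw [cov_to_inr hr hlr hac, cov_to_inr hr hlr hbc]
  · right
    rw [cov_inr hr hbc, cov_inr hr hbd]

/-- first marker above -/
def up (r : α → ℕ) : Fin (N + 1) ⊕ α → ℕ
  | .inl s => s.val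
  | .inr a => r a + 1

/-- last marker below -/
def dn (l : α → ℕ) : Fin (N + 1) ⊕ α → ℕ
  | .inl s => s.val
  | .inr a => l a

theorem up_le (hr : ∀ a, r a < N) (x : Fin (N + 1) ⊕ α) : up r x < N + 1 := by
  rcases x with s | a
  · exact s.2
  · have := hr a
    simp only [up]
    omega

theorem dn_le (hr : ∀ a, r a < N) (hlr : ∀ a, l a ≤ r a) (x : Fin (N + 1) ⊕ α) :
    dn l x < N + 1 := by
  rcases x with s | a
  · exact s.2
  · have := hr a
    have := hlr a
    simp only [dn]
    omega

theorem up_le_dn {x y : Fin (N + 1) ⊕ α} (h : RR l r x y) : up r x ≤ dn l y := by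
  rcases x with s | a <;> rcases y with t | b <;> simp only [RR, iv, up, dn] at h ⊢ <;> omega

theorem leq_marker {x : Fin (N + 1) ⊕ α} {m : Fin (N + 1)} (h : up r x ≤ m.val) :
    Leq (RR l r) x (.inl m) := by
  rcases x with s | a
  · simp only [up] at h
    rcases h.eq_or_lt with h | h
    · left
      rw [Fin.ext h]
    · right
      simp only [RR, iv]
      omega
  · right
    simp only [RR, iv, up] at h ⊢
    omega

theorem marker_leq {x : Fin (N + 1) ⊕ α} {m : Fin (N + 1)} (h : m.val ≤ dn l x) :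
    Leq (RR l r) (.inl m) x := by
  rcases x with s | a
  · simp only [dn] at h
    rcases h.eq_or_lt with h | h
    · left
      rw [Fin.ext h]
    · right
      simp only [RR, iv]
      omega
  · right
    simp only [RR, iv, dn] at h ⊢
    omega

theorem leq_trans_RR (hlr : ∀ a, l a ≤ r a) {x y z : Fin (N + 1) ⊕ α}
    (h1 : Leq (RR l r) x y) (h2 : Leq (RR l r) y z) : Leq (RR l r) x z := by
  rcases h1 with rfl | h1
  · exact h2
  · rcases h2 with rfl | h2
    · exact Or.inr h1
    · right
      have h3 : (iv l r y).1 ≤ (iv l r y).2 := by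
        rcases y with s | a
        · exact le_rfl
        · have := hlr a
          simp only [iv]
          omega
      unfold RR at h1 h2 ⊢
      omega

theorem lattice_RR (hr : ∀ a, r a < N) (hlr : ∀ a, l a ≤ r a) : IsLatticeRel (RR (N := N) l r) := by
  intro x y
  constructor
  · by_cases hxy : Leq (RR l r) x y
    · exact ⟨y, hxy, Or.inl rfl, fun d _ hd => hd⟩
    by_cases hyx : Leq (RR l r) y x
    · exact ⟨x, Or.inl rfl, hyx, fun d hd _ => hd⟩
    refine ⟨.inl ⟨max (up r x) (up r y), max_lt (up_le hr x) (up_le hr y)⟩,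
      leq_marker (le_max_left _ _), leq_marker (le_max_right _ _), fun d h1 h2 => ?_⟩
    rcases h1 with rfl | h1
    · exact absurd h2 hyx
    rcases h2 with rfl | h2
    · exact absurd (Or.inr h1) hxy
    exact marker_leq (max_le (up_le_dn h1) (up_le_dn h2))
  · by_cases hxy : Leq (RR l r) x y
    · exact ⟨x, Or.inl rfl, hxy, fun d hd _ => hd⟩
    by_cases hyx : Leq (RR l r) y x
    · exact ⟨y, hyx, Or.inl rfl, fun d _ hd => hd⟩
    refine ⟨.inl ⟨min (dn l x) (dn l y), (min_le_left _ _).trans_lt (dn_le hr hlr x)⟩,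
      marker_leq (min_le_left _ _), marker_leq (min_le_right _ _), fun d h1 h2 => ?_⟩
    rcases h1 with rfl | h1
    · exact absurd h2 hxy
    rcases h2 with rfl | h2
    · exact absurd (Or.inr h1) hyx
    exact leq_marker (le_min (up_le_dn h1) (up_le_dn h2))

end Abstract

section Transport

variable {α β : Type} {R : α → α → Prop} {S : β → β → Prop} (e : α ≃ β)
  (h : ∀ i j, R i j ↔ S (e i) (e j))

include h

theorem cov_iff (i j : α) : Cov R i j ↔ Cov S (e i) (e j) := by
  unfold Cov
  rw [h]
  refine and_congr Iff.rfl ⟨fun H z hz => ?_, fun H z hz => ?_⟩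
  · apply H (e.symm z)
    rw [h, h, Equiv.apply_symm_apply]
    exact hz
  · rw [h, h] at hz
    exact H _ hz

theorem leq_iff (i j : α) : Leq R i j ↔ Leq S (e i) (e j) := by
  unfold Leq
  rw [h, e.injective.eq_iff]

theorem nfree_of (hS : NFree S) : NFree R := by
  intro a b c d h1 h2 h3
  rw [cov_iff e h] at h1 h2 h3
  rcases hS _ _ _ _ h1 h2 h3 with h4 | h4
  · exact Or.inl (e.injective h4)
  · exact Or.inr (e.injective h4)

theorem lattice_of (hS : IsLatticeRel S) : IsLatticeRel R := by
  intro a b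
  obtain ⟨⟨c, h1, h2, h3⟩, c', h1', h2', h3'⟩ := hS (e a) (e b)
  constructor
  · refine ⟨e.symm c, ?_, ?_, fun d hd1 hd2 => ?_⟩
    · rw [leq_iff e h, Equiv.apply_symm_apply]
      exact h1
    · rw [leq_iff e h, Equiv.apply_symm_apply]
      exact h2
    · rw [leq_iff e h] at hd1 hd2 ⊢
      rw [Equiv.apply_symm_apply]
      exact h3 _ hd1 hd2
  · refine ⟨e.symm c', ?_, ?_, fun d hd1 hd2 => ?_⟩
    · rw [leq_iff e h, Equiv.apply_symm_apply]
      exact h1'
    · rw [leq_iff e h, Equiv.apply_symm_apply]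
      exact h2'
    · rw [leq_iff e h] at hd1 hd2 ⊢
      rw [Equiv.apply_symm_apply]
      exact h3' _ hd1 hd2

end Transport

/-- the class: square matrices of posets that are lattices, interval orders and N-free -/
def Good (A : List (List Bool)) : Prop :=
  (∀ r ∈ A, r.length = A.length) ∧ IsIntervalOrder (rel A) ∧ NFree (rel A) ∧ IsLatticeRel (rel A)

theorem good_ivs {N K : ℕ} (hK : 1 ≤ K) (lo hi : ℕ → ℕ) (hhi : ∀ i < N, hi i < N)
    (hlo : ∀ i < N, lo i ≤ hi i) : Good (posetOf (ivs N K lo hi)) := by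
  set L := ivs N K lo hi with hL
  have hlen := posetOf_length L
  let e : Fin (posetOf L).length ≃ El N K := (finCongr hlen).trans (enL N K lo hi)
  have he : ∀ i j : Fin (posetOf L).length, rel (posetOf L) i j ↔
      RR (lf (K := K) lo) (lf (K := K) hi) (e i) (e j) := by
    intro i j
    have hi' : i.val < L.length := i.2.trans_eq hlen
    have hj' : j.val < L.length := j.2.trans_eq hlen
    rw [rel, ent_posetOf L i j hi' hj', RR]
    have h1 := enL_spec (N := N) (K := K) lo hi ⟨i.val, hi'⟩
    have h2 := enL_spec (N := N) (K := K) lo hi ⟨j.val, hj'⟩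
    have h1' : L.getD i.val (0, 0) = iv (lf (K := K) lo) (lf (K := K) hi) (e i) := h1
    have h2' : L.getD j.val (0, 0) = iv (lf (K := K) lo) (lf (K := K) hi) (e j) := h2
    rw [h1', h2']
  have hr : ∀ a, lf (N := N) (K := K) hi a < N := by
    rintro (p | i)
    · exact p.1.2
    · exact hhi i.val i.2
  have hlr : ∀ a, lf (N := N) (K := K) lo a ≤ lf (K := K) hi a := by
    rintro (p | i)
    · exact le_rfl
    · exact hlo i.val i.2
  refine ⟨?_, ?_, ?_, ?_⟩
  · intro r hr'
    rw [posetOf, List.mem_map] at hr'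
    obtain ⟨u, _, rfl⟩ := hr'
    rw [hlen, List.length_map]
  · refine ⟨fun i => ((iv (lf (K := K) lo) (lf (K := K) hi) (e i)).1 : ℝ),
      fun i => ((iv (lf (K := K) lo) (lf (K := K) hi) (e i)).2 : ℝ), fun i => ?_, fun i j => ?_⟩
    · have h1 : (iv (lf (K := K) lo) (lf (K := K) hi) (e i)).1 ≤
          (iv (lf (K := K) lo) (lf (K := K) hi) (e i)).2 := by
        rcases e i with s | a
        · exact le_rfl
        · have := hlr a
          simp only [iv]
          omega
      exact Nat.cast_le.2 h1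
    · rw [he, RR]
      exact Nat.cast_lt.symm
  · refine nfree_of e he (nfree_RR hr hlr ?_)
    intro t ht
    exact ⟨.inl (⟨t, ht⟩, ⟨0, hK⟩), rfl, rfl⟩
  · exact lattice_of e he (lattice_RR hr hlr)

end Pool.Agent.W887.LE
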