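import Mathlib

/-!
# Counting linear extensions of posets with a chain of markers
-/

set_option linter.unusedSectionVars false

namespace Pool.Agent.W887.LE

open Finset

section Key

variable {β : Type*} [Fintype β] [DecidableEq β]

/-- a bijection sorting the values of `κ` -/
theorem exists_sort {n : ℕ} (hn : Fintype.card β = n) (κ : β → ℕ) :
    ∃ σ : β ≃ Fin n, ∀ x y, κ x < κ y → σ x < σ y := by
  let e : β ≃ Fin n := Fintype.equivFinOfCardEq hn
  let τ := Tuple.sort (κ ∘ e.symm)
  have hm := Tuple.monotone_sort (κ ∘ e.symm)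
  refine ⟨e.trans τ.symm, fun x y h => ?_⟩
  by_contra hc
  have h1 : (e.trans τ.symm) y ≤ (e.trans τ.symm) x := not_lt.1 hc
  have h2 := hm h1
  simp only [Function.comp, Equiv.trans_apply] at h2
  change κ (e.symm (τ (τ.symm (e y)))) ≤ κ (e.symm (τ (τ.symm (e x)))) at h2
  rw [Equiv.apply_symm_apply, Equiv.apply_symm_apply, Equiv.symm_apply_apply,
    Equiv.symm_apply_apply] at h2
  omega

theorem mono_of_key {n : ℕ} {κ : β → ℕ} {σ : β ≃ Fin n} (h : ∀ x y, κ x < κ y → σ x < σ y) :
    Monotone (κ ∘ σ.symm) := by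
  intro i j hij
  by_contra hc
  have h1 := h _ _ (not_le.1 hc)
  simp only [Equiv.apply_symm_apply] at h1
  exact absurd hij (not_le.2 h1)

/-- the number of bijections sorting the values of `κ` -/
theorem card_key {n : ℕ} (hn : Fintype.card β = n) (κ : β → ℕ) :
    Nat.card {σ : β ≃ Fin n // ∀ x y, κ x < κ y → σ x < σ y} =
      ∏ v ∈ univ.image κ, (Fintype.card {x // κ x = v}).factorial := by
  obtain ⟨σ0, h0⟩ := exists_sort hn κ
  rw [← DomMulAct.stabilizer_card' κ, ← Nat.card_eq_fintype_card]
  refine Nat.card_congr ⟨fun σ => ⟨σ.1.trans σ0.symm, ?_⟩, fun g => ⟨g.1.trans σ0, ?_⟩, ?_, ?_⟩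
  · have h1 : (κ ∘ σ0.symm) ∘ (Equiv.refl (Fin n)) =
        (κ ∘ σ0.symm) ∘ (σ.1.symm.trans σ0 : Equiv.Perm (Fin n)) := by
      apply Tuple.unique_monotone
      · exact mono_of_key h0
      · have h2 : (κ ∘ σ0.symm) ∘ (σ.1.symm.trans σ0 : Equiv.Perm (Fin n)) = κ ∘ σ.1.symm := by
          funext i
          simp
        rw [h2]
        exact mono_of_key σ.2
    funext x
    have h3 := congrFun h1 (σ.1 x)
    simp only [Function.comp, Equiv.trans_apply, Equiv.coe_refl, id, Equiv.symm_apply_apply] at h3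
    simpa using h3
  · intro x y hxy
    have hg : ∀ z, κ (g.1 z) = κ z := fun z => congrFun g.2 z
    exact h0 _ _ (by rw [hg, hg]; exact hxy)
  · intro σ
    apply Subtype.ext
    ext x
    simp
  · intro g
    apply Subtype.ext
    ext x
    simp

end Key

section Decomp

variable {α : Type*} [Fintype α] [DecidableEq α]

/-- intervals attached to the markers and to the items -/
def iv {N : ℕ} (l r : α → ℕ) : Fin (N + 1) ⊕ α → ℕ × ℕ
  | .inl t => (2 * t.val, 2 * t.val)
  | .inr a => (2 * l a + 1, 2 * r a + 1)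

/-- the key given by an assignment of gaps -/
def key {N : ℕ} (f : α → ℕ) : Fin (N + 1) ⊕ α → ℕ
  | .inl t => 2 * t.val
  | .inr a => 2 * f a + 1

/-- the gap in which the item `a` lies -/
noncomputable def gap {N n : ℕ} (σ : Fin (N + 1) ⊕ α ≃ Fin n) (a : α) : ℕ :=
  sSup {t : ℕ | ∃ h : t < N + 1, σ (.inl ⟨t, h⟩) < σ (.inr a)}

theorem gap_spec {N n : ℕ} (σ : Fin (N + 1) ⊕ α ≃ Fin n) (a : α)
    (hne : ∃ t, ∃ h : t < N + 1, σ (.inl ⟨t, h⟩) < σ (.inr a)) :
    (∃ h : gap σ a < N + 1, σ (.inl ⟨gap σ a, h⟩) < σ (.inr a)) ∧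
      ∀ t (h : t < N + 1), gap σ a < t → σ (.inr a) < σ (.inl ⟨t, h⟩) := by
  have hb : BddAbove {t : ℕ | ∃ h : t < N + 1, σ (.inl ⟨t, h⟩) < σ (.inr a)} :=
    ⟨N + 1, fun t ht => ht.1.le⟩
  refine ⟨Nat.sSup_mem hne hb, fun t h ht => ?_⟩
  by_contra hc
  have h1 : σ (.inl ⟨t, h⟩) < σ (.inr a) := by
    refine lt_of_le_of_ne (not_lt.1 hc) fun h2 => ?_
    have := σ.injective h2
    simp at this
  have h2 : t ≤ gap σ a := le_csSup hb ⟨h, h1⟩
  omega

/-- linear extensions and gap assignments -/
theorem decomp {N n : ℕ} (l r : α → ℕ) (hr : ∀ a, r a < N) (hlr : ∀ a, l a ≤ r a)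
    (σ : Fin (N + 1) ⊕ α ≃ Fin n) :
    (∀ x y, (iv l r x).2 < (iv l r y).1 → σ x < σ y) ↔
      ∃ f : α → ℕ, (∀ a, f a ∈ Icc (l a) (r a)) ∧ ∀ x y, key f x < key f y → σ x < σ y := by
  constructor
  · intro h
    have hne : ∀ a, ∃ t, ∃ h : t < N + 1, σ (.inl ⟨t, h⟩) < σ (.inr a) := fun a =>
      ⟨l a, by have := hr a; have := hlr a; omega, h _ _ (by simp [iv])⟩
    have hmark : ∀ s t : Fin (N + 1), s < t → σ (.inl s) < σ (.inl t) := fun s t hst =>
      h _ _ (by simp only [iv]; have : s.val < t.val := hst; omega)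
    have hmark' : ∀ s t : Fin (N + 1), s ≤ t → σ (.inl s) ≤ σ (.inl t) := fun s t hst => by
      rcases hst.eq_or_lt with h1 | h1
      · rw [h1]
      · exact (hmark s t h1).le
    have hg1 := fun a => (gap_spec σ a (hne a)).1
    have hg2 := fun a => (gap_spec σ a (hne a)).2
    refine ⟨fun a => gap σ a, fun a => ?_, ?_⟩
    · rw [mem_Icc]
      constructor
      · by_contra hc
        have h1 := hg2 a (l a) (by have := hr a; have := hlr a; omega) (not_le.1 hc)
        have h2 : σ (.inl ⟨l a, _⟩) < σ (.inr a) :=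
          h (.inl ⟨l a, by have := hr a; have := hlr a; omega⟩) (.inr a) (by simp [iv])
        exact absurd h1 (not_lt.2 h2.le)
      · by_contra hc
        have hc' : r a < gap σ a := not_le.1 hc
        obtain ⟨h1, h2⟩ := hg1 a
        have h3 : σ (.inr a) < σ (.inl ⟨r a + 1, _⟩) :=
          h (.inr a) (.inl ⟨r a + 1, by have := hr a; omega⟩) (by simp [iv]; omega)
        have h4 := hmark' ⟨r a + 1, by have := hr a; omega⟩ ⟨gap σ a, h1⟩
          (by rw [Fin.le_def]; exact hc')
        exact absurd (h3.trans_le h4) (not_lt.2 h2.le)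
    · rintro (s | a) (t | b) hxy
      · simp only [key] at hxy
        exact hmark s t (by rw [Fin.lt_def]; omega)
      · simp only [key] at hxy
        obtain ⟨h1, h2⟩ := hg1 b
        exact (hmark' s ⟨gap σ b, h1⟩ (by rw [Fin.le_def]; simp only; omega)).trans_lt h2
      · simp only [key] at hxy
        exact hg2 a t.val t.2 (by omega)
      · simp only [key] at hxy
        obtain ⟨h1, h2⟩ := hg1 b
        exact (hg2 a (gap σ b) h1 (by omega)).trans h2
  · rintro ⟨f, hf, hσ⟩ x y hxy
    apply hσ
    have h1 : key f x ≤ (iv l r x).2 := by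
      rcases x with s | a
      · simp [key, iv]
      · have := mem_Icc.1 (hf a)
        simp only [key, iv]
        omega
    have h2 : (iv l r y).1 ≤ key f y := by
      rcases y with s | a
      · simp [key, iv]
      · have := mem_Icc.1 (hf a)
        simp only [key, iv]
        omega
    omega

theorem key_unique {N n : ℕ} (f g : α → ℕ) (hf : ∀ a, f a < N) (hg : ∀ a, g a < N)
    (σ : Fin (N + 1) ⊕ α ≃ Fin n) (h1 : ∀ x y, key f x < key f y → σ x < σ y)
    (h2 : ∀ x y, key g x < key g y → σ x < σ y) : f = g := by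
  have key1 : ∀ (f g : α → ℕ), (∀ a, g a < N) →
      (∀ x y, key (N := N) f x < key f y → σ x < σ y) →
      (∀ x y, key (N := N) g x < key g y → σ x < σ y) → ∀ a, ¬ f a < g a := by
    intro f g hg h1 h2 a hlt
    have h3 := h2 (.inl ⟨g a, by have := hg a; omega⟩) (.inr a) (by simp [key])
    have h4 := h1 (.inr a) (.inl ⟨g a, by have := hg a; omega⟩) (by simp only [key]; omega)
    exact absurd h3 (not_lt.2 h4.le)
  funext a
  exact le_antisymm (not_lt.1 (key1 g f hf h2 h1 a)) (not_lt.1 (key1 f g hg h1 h2 a))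

theorem image_key {N : ℕ} (f : α → ℕ) (hf : ∀ a, f a < N) :
    ∏ v ∈ univ.image (key (N := N) f), (Fintype.card {x // key (N := N) f x = v}).factorial =
      ∏ t ∈ range N, (Fintype.card {a // f a = t}).factorial := by
  have hodd : ∀ t, Fintype.card {x // key (N := N) f x = 2 * t + 1} =
      Fintype.card {a // f a = t} := by
    intro t
    refine Fintype.card_congr ⟨fun x => ?_, fun a => ⟨.inr a.1, by simp [key, a.2]⟩, ?_, ?_⟩
    · rcases x with ⟨s | a, hx⟩
      · exact absurd hx (by simp only [key]; omega)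
      · exact ⟨a, by simp only [key] at hx; omega⟩
    · rintro ⟨s | a, hx⟩
      · exact absurd hx (by simp only [key]; omega)
      · rfl
    · rintro ⟨a, ha⟩
      rfl
  have heven : ∀ t, Fintype.card {x // key (N := N) f x = 2 * t} ≤ 1 := by
    intro t
    rw [Fintype.card_le_one_iff]
    rintro ⟨s | a, hx⟩ ⟨s' | a', hx'⟩
    · simp only [key] at hx hx'
      apply Subtype.ext
      simp only [Sum.inl.injEq]
      apply Fin.ext
      omega
    · exact absurd hx' (by simp only [key]; omega)
    · exact absurd hx (by simp only [key]; omega)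
    · exact absurd hx (by simp only [key]; omega)
  have h1 : ∏ v ∈ univ.image (key (N := N) f), (Fintype.card {x // key (N := N) f x = v}).factorial
      = ∏ v ∈ range (2 * N + 1), (Fintype.card {x // key (N := N) f x = v}).factorial := by
    refine Finset.prod_subset ?_ ?_
    · intro v hv
      rw [mem_image] at hv
      obtain ⟨x, _, rfl⟩ := hv
      rw [mem_range]
      rcases x with s | a
      · have := s.2
        simp only [key]
        omega
      · have := hf a
        simp only [key]
        omega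
    · intro v _ hv
      have : Fintype.card {x // key (N := N) f x = v} = 0 := by
        rw [Fintype.card_eq_zero_iff]
        refine ⟨fun x => hv ?_⟩
        rw [mem_image]
        exact ⟨x.1, mem_univ _, x.2⟩
      rw [this, Nat.factorial_zero]
  rw [h1]
  clear h1
  have hfac : ∀ k, k ≤ 1 → k.factorial = 1 := by
    intro k hk
    interval_cases k <;> rfl
  have h2 : ∀ M : ℕ, ∏ v ∈ range (2 * M + 1), (Fintype.card {x // key (N := N) f x = v}).factorial =
      ∏ t ∈ range M, (Fintype.card {a // f a = t}).factorial := by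
    intro M
    induction M with
    | zero =>
      have := heven 0
      simp only [mul_zero, zero_add, Finset.range_one, Finset.prod_singleton, Finset.range_zero,
        Finset.prod_empty]
      exact hfac _ (by simpa using this)
    | succ M ih =>
      rw [show 2 * (M + 1) + 1 = 2 * M + 1 + 1 + 1 by ring, Finset.prod_range_succ,
        Finset.prod_range_succ, ih, hodd, Finset.prod_range_succ]
      have := heven (M + 1)
      rw [show 2 * M + 1 + 1 = 2 * (M + 1) by ring, hfac _ this, mul_one]
  exact h2 N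

/-- **The number of linear extensions of a poset with markers.** -/
theorem card_le {N n : ℕ} (l r : α → ℕ) (hr : ∀ a, r a < N) (hlr : ∀ a, l a ≤ r a)
    (hn : Fintype.card (Fin (N + 1) ⊕ α) = n) :
    Nat.card {σ : Fin (N + 1) ⊕ α ≃ Fin n // ∀ x y, (iv l r x).2 < (iv l r y).1 → σ x < σ y} =
      ∑ f ∈ Fintype.piFinset (fun a => Icc (l a) (r a)),
        ∏ t ∈ range N, (Fintype.card {a // f a = t}).factorial := by
  classical
  have h1 : ∀ f ∈ Fintype.piFinset (fun a => Icc (l a) (r a)),
      ∏ t ∈ range N, (Fintype.card {a // f a = t}).factorial =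
      ((univ : Finset (Fin (N + 1) ⊕ α ≃ Fin n)).filter
        (fun σ => ∀ x y, key f x < key f y → σ x < σ y)).card := by
    intro f hf
    have hfN : ∀ a, f a < N := fun a => by
      have := mem_Icc.1 (Fintype.mem_piFinset.1 hf a)
      have := hr a
      omega
    rw [← image_key f hfN, ← card_key hn, Nat.card_eq_fintype_card, Fintype.card_subtype]
  rw [Finset.sum_congr rfl h1, ← Finset.card_biUnion, Nat.card_eq_fintype_card,
    Fintype.card_subtype]
  · congr 1
    ext σ
    rw [mem_filter, decomp l r hr hlr, mem_biUnion]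
    constructor
    · rintro ⟨_, f, hf, hσ⟩
      exact ⟨f, Fintype.mem_piFinset.2 hf, by rw [mem_filter]; exact ⟨mem_univ _, hσ⟩⟩
    · rintro ⟨f, hf, hσ⟩
      rw [mem_filter] at hσ
      exact ⟨mem_univ _, f, Fintype.mem_piFinset.1 hf, hσ.2⟩
  · intro f hf g hg hfg
    rw [Function.onFun, Finset.disjoint_left]
    intro σ h1 h2
    rw [mem_filter] at h1 h2
    apply hfg
    refine key_unique (N := N) f g (fun a => ?_) (fun a => ?_) σ h1.2 h2.2
    · have := mem_Icc.1 (Fintype.mem_piFinset.1 hf a)
      have := hr a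
      omega
    · have := mem_Icc.1 (Fintype.mem_piFinset.1 hg a)
      have := hr a
      omega

end Decomp

end Pool.Agent.W887.LE
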