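import Pool.Agent.W887.LE.Mem

/-!
# Membership in `#P` and hardness
-/

namespace Pool.Agent.NPC.LE887

open Pool.Agent.H549R2.Convex (ent F Consec F_eq_card')
open Pool.Agent.NPC.Cnt Pool.Agent.W887.LE Pool.Agent.NPC.H549NRed
open Pool.Agent.NPC.H549Convex (LL fp_of_poly upoly_fact ent_poly poly_prod sqB_poly sqB)

open Classical in
/-- the number of linear extensions on the class `C`, `0` for all other inputs -/
noncomputable def numLEOn (C : List (List Bool) → Prop) (A : List (List Bool)) : ℕ :=
  if C A then numLE A else 0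

theorem numLE_size (A : LL) : (numLE A).size ≤ A.length * A.length + 1 := by
  classical
  rw [Nat.size_le]
  have h1 : numLE A ≤ A.length.factorial := by
    unfold numLE
    rw [Nat.card_eq_fintype_card]
    refine (Fintype.card_subtype_le _).trans ?_
    rw [Fintype.card_perm, Fintype.card_fin]
  have h2 : A.length.factorial ≤ A.length ^ A.length := Nat.factorial_le_pow _
  have h3 : A.length ^ A.length ≤ (2 ^ A.length) ^ A.length :=
    Nat.pow_le_pow_left (Nat.lt_two_pow_self).le _
  rw [← pow_mul] at h3
  have h4 : 2 ^ (A.length * A.length) < 2 ^ (A.length * A.length + 1) :=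
    Nat.pow_lt_pow_right (by norm_num) (by omega)
  omega

theorem numLEOn_size (C : LL → Prop) (A : LL) :
    (numLEOn C A).size ≤ A.length * A.length + 1 := by
  rw [numLEOn]
  split_ifs
  · exact numLE_size A
  · simp

/-- test of a certificate (list of positions) -/
def crt (T : LL → Bool) (A : LL) (w : List ℕ) : Bool :=
  T A && (decide (w.length = A.length) &&
    ((allL A fun i => decide (w.getD i 0 < A.length)) &&
    allL A fun i => allL A fun k =>
      (!decide (w.getD i 0 = w.getD k 0) || decide (i = k)) &&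
        (!ent A i k || decide (w.getD i 0 < w.getD k 0))))

theorem crt_poly {T : LL → Bool} (hT : Poly T) :
    Poly (fun x : LL × List ℕ => crt T x.1 x.2) := by
  have hA : Poly (fun x : LL × List ℕ => x.1) := Poly.fst Poly.id
  have g1 : Poly (fun z : (LL × List ℕ) × ℕ => z.1.2.getD z.2 0) :=
    Poly.getD (Poly.snd (Poly.fst Poly.id)) (Poly.snd Poly.id) (Poly.const 0)
  have h1 : Poly (fun x : LL × List ℕ => allL x.1 fun i => decide (x.2.getD i 0 < x.1.length)) :=
    allL_poly (A := fun x : LL × List ℕ => x.1)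
      (p := fun (x : LL × List ℕ) i => decide (x.2.getD i 0 < x.1.length)) hA
      (Poly.decide_lt g1 (Poly.length (Poly.fst (Poly.fst Poly.id))))
  have k1 : Poly (fun z : ((LL × List ℕ) × ℕ) × ℕ => z.1.1.2.getD z.1.2 0) :=
    Poly.getD (Poly.snd (Poly.fst (Poly.fst Poly.id))) (Poly.snd (Poly.fst Poly.id)) (Poly.const 0)
  have k2 : Poly (fun z : ((LL × List ℕ) × ℕ) × ℕ => z.1.1.2.getD z.2 0) :=
    Poly.getD (Poly.snd (Poly.fst (Poly.fst Poly.id))) (Poly.snd Poly.id) (Poly.const 0)
  have k3 : Poly (fun z : ((LL × List ℕ) × ℕ) × ℕ =>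
      (!decide (z.1.1.2.getD z.1.2 0 = z.1.1.2.getD z.2 0) || decide (z.1.2 = z.2)) &&
        (!ent z.1.1.1 z.1.2 z.2 || decide (z.1.1.2.getD z.1.2 0 < z.1.1.2.getD z.2 0))) :=
    Poly.and (Poly.or (Poly.not (Poly.decide_eq k1 k2)) (Poly.decide_eq
      (Poly.snd (Poly.fst Poly.id)) (Poly.snd Poly.id)))
      (Poly.or (Poly.not (ent_p (Poly.fst (Poly.fst (Poly.fst Poly.id)))
        (Poly.snd (Poly.fst Poly.id)) (Poly.snd Poly.id))) (Poly.decide_lt k1 k2))
  have h2 : Poly (fun z : (LL × List ℕ) × ℕ => allL z.1.1 fun k =>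
      (!decide (z.1.2.getD z.2 0 = z.1.2.getD k 0) || decide (z.2 = k)) &&
        (!ent z.1.1 z.2 k || decide (z.1.2.getD z.2 0 < z.1.2.getD k 0))) :=
    allL_poly (A := fun z : (LL × List ℕ) × ℕ => z.1.1)
      (p := fun (z : (LL × List ℕ) × ℕ) k =>
        (!decide (z.1.2.getD z.2 0 = z.1.2.getD k 0) || decide (z.2 = k)) &&
          (!ent z.1.1 z.2 k || decide (z.1.2.getD z.2 0 < z.1.2.getD k 0)))
      (Poly.fst (Poly.fst Poly.id)) k3
  have h3 : Poly (fun x : LL × List ℕ => allL x.1 fun i => allL x.1 fun k =>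
      (!decide (x.2.getD i 0 = x.2.getD k 0) || decide (i = k)) &&
        (!ent x.1 i k || decide (x.2.getD i 0 < x.2.getD k 0))) :=
    allL_poly (A := fun x : LL × List ℕ => x.1)
      (p := fun (x : LL × List ℕ) i => allL x.1 fun k =>
        (!decide (x.2.getD i 0 = x.2.getD k 0) || decide (i = k)) &&
          (!ent x.1 i k || decide (x.2.getD i 0 < x.2.getD k 0))) hA h2
  exact Poly.and (hT.comp hA) (Poly.and
    (Poly.decide_eq (Poly.length (Poly.snd Poly.id)) (Poly.length hA)) (Poly.and h1 h3))

theorem crt_card {T : LL → Bool} {C : LL → Prop} (hTC : ∀ A, T A = true ↔ C A) (A : LL) :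
    Nat.card {w : List ℕ // crt T A w = true} = numLEOn C A := by
  classical
  by_cases hg : C A
  · rw [numLEOn, if_pos hg, numLE]
    have hcrt : ∀ w : List ℕ, crt T A w = true ↔ w.length = A.length ∧
        (∀ i : Fin A.length, w.getD i.val 0 < A.length) ∧
        ∀ i k : Fin A.length, (w.getD i.val 0 = w.getD k.val 0 → i = k) ∧
          (rel A i k → w.getD i.val 0 < w.getD k.val 0) := by
      intro w
      unfold crt
      rw [(hTC A).2 hg, Bool.true_and, Bool.and_eq_true, Bool.and_eq_true,
        decide_eq_true_eq, allL_iff, allL_iff]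
      refine and_congr Iff.rfl (and_congr (forall_congr' fun i => decide_eq_true_iff) ?_)
      refine forall_congr' fun i => ?_
      rw [allL_iff]
      refine forall_congr' fun k => ?_
      rw [Bool.and_eq_true]
      refine and_congr ?_ ?_
      · rw [Bool.or_eq_true, Bool.not_eq_true', decide_eq_false_iff_not, decide_eq_true_eq,
          Fin.ext_iff]
        tauto
      · unfold rel
        rw [Bool.or_eq_true, decide_eq_true_eq]
        cases ent A i k <;> simp
    have hgd : ∀ (f : Fin A.length → Fin A.length) (i : Fin A.length),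
        (List.ofFn (fun i => (f i).val)).getD i.val 0 = (f i).val := by
      intro f i
      rw [List.getD_eq_getElem _ _ (by rw [List.length_ofFn]; exact i.2), List.getElem_ofFn]
    symm
    refine Nat.card_congr (Equiv.ofBijective
      (fun σ : {σ : Equiv.Perm (Fin A.length) // ∀ i j, rel A i j → σ i < σ j} =>
        (⟨List.ofFn (fun i => (σ.1 i).val), ?_⟩ : {w : List ℕ // crt T A w = true})) ⟨?_, ?_⟩)
    · rw [hcrt]
      refine ⟨List.length_ofFn, fun i => ?_, fun i k => ⟨fun h => ?_, fun h => ?_⟩⟩
      · rw [hgd σ.1 i]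
        exact (σ.1 i).2
      · rw [hgd σ.1 i, hgd σ.1 k] at h
        exact σ.1.injective (Fin.ext h)
      · rw [hgd σ.1 i, hgd σ.1 k]
        exact σ.2 i k h
    · intro f g h
      apply Subtype.ext
      have h1 := congrArg Subtype.val h
      simp only at h1
      have h2 := List.ofFn_injective h1
      apply Equiv.ext
      intro i
      exact Fin.ext (congrFun h2 i)
    · rintro ⟨w, hc⟩
      obtain ⟨hlen, hlt, hinj⟩ := (hcrt w).1 hc
      have hinj' : Function.Injective
          (fun i : Fin A.length => (⟨w.getD i.val 0, hlt i⟩ : Fin A.length)) := by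
        intro i k h
        exact (hinj i k).1 (Fin.mk.inj_iff.1 h)
      refine ⟨⟨Equiv.ofBijective _ (Finite.injective_iff_bijective.1 hinj'), fun i j h => ?_⟩, ?_⟩
      · exact (hinj i j).2 h
      · apply Subtype.ext
        simp only
        apply List.ext_getElem
        · rw [List.length_ofFn, hlen]
        · intro i h1 h2
          rw [List.getElem_ofFn]
          simp only [Equiv.ofBijective_apply]
          rw [List.getD_eq_getElem w _ h2]
  · rw [numLEOn, if_neg hg]
    have : ∀ w, ¬ crt T A w = true := by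
      intro w h
      unfold crt at h
      rw [Bool.and_eq_true] at h
      exact hg ((hTC A).1 h.1)
    have : IsEmpty {w : List ℕ // crt T A w = true} := ⟨fun w => this w.1 w.2⟩
    exact Nat.card_of_isEmpty

theorem mem_sharpP {T : LL → Bool} (hT : Poly T) {C : LL → Prop} (hTC : ∀ A, T A = true ↔ C A) :
    SharpP (strFn (numLEOn C)) := by
  have h := sharpP_typed (crt T) (crt_poly hT)
    (Polynomial.X * (Polynomial.C 4 * Polynomial.X + Polynomial.C 2) + Polynomial.C 1) ?_
  · have e : (fun A : LL => Nat.card {w : List ℕ // crt T A w = true}) = numLEOn C :=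
      funext (crt_card hTC)
    rw [e] at h
    exact h
  · intro A w hc
    unfold crt at hc
    rw [Bool.and_eq_true, Bool.and_eq_true, Bool.and_eq_true, decide_eq_true_eq, allL_iff] at hc
    obtain ⟨_, hlen, hlt, _⟩ := hc
    have h1 : ∀ a ∈ w, sz a ≤ 4 * A.length + 1 := by
      intro a ha
      obtain ⟨i, hi, rfl⟩ := List.mem_iff_getElem.1 ha
      have h2 := hlt ⟨i, by omega⟩
      simp only [decide_eq_true_eq] at h2
      rw [List.getD_eq_getElem w _ hi] at h2
      have h3 := sz_nat_le w[i]
      have h4 : (w[i]).size ≤ w[i] := Nat.size_le.2 Nat.lt_two_pow_self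
      omega
    have h2 := sz_le_length_mul w _ h1
    have h3 := length_lt_sz A
    simp only [Polynomial.eval_add, Polynomial.eval_mul, Polynomial.eval_X, Polynomial.eval_C]
    have h4 : w.length * (4 * A.length + 1 + 1) ≤ sz A * (4 * sz A + 2) :=
      Nat.mul_le_mul (by omega) (by omega)
    omega

/-- all inputs -/
theorem mem_all : SharpP (strFn numLE) := by
  have h := mem_sharpP (T := fun _ => true) (Poly.const true) (C := fun _ => True) (by simp)
  have e : numLEOn (fun _ => True) = numLE := by
    funext A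
    rw [numLEOn, if_pos trivial]
  rwa [e] at h

theorem mem_good : SharpP (strFn (numLEOn Good)) := mem_sharpP goodB_poly goodB_iff

theorem mem_interval_orders : SharpP (strFn (numLEOn fun A =>
    (∀ r ∈ A, r.length = A.length) ∧ IsIntervalOrder (rel A))) :=
  mem_sharpP (Poly.and sqB_poly ioB_poly) fun A => by
    rw [Bool.and_eq_true, sqB_iff', ioB_iff]

theorem hard (C : LL → Prop) (hC : ∀ A, Good A → C A) : SharpPHard (strFn (numLEOn C)) := by
  refine hard_of_nred nred_sat_le (g := numLEOn C) (fun A hA => by rw [numLEOn, if_pos (hC A hA)])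
    (Polynomial.X * Polynomial.X + Polynomial.C 1) fun A => ?_
  refine (numLEOn_size C A).trans ?_
  have h := length_lt_sz A
  simp only [Polynomial.eval_add, Polynomial.eval_mul, Polynomial.eval_X, Polynomial.eval_C]
  have := Nat.mul_le_mul h.le h.le
  omega

theorem fp_iff (C : LL → Prop) (hC : ∀ A, Good A → C A) :
    (∀ f : List Bool → ℕ, SharpP f → FP f) ↔
    ∃ g : List Bool → List Bool, PolyTime g ∧
      ∀ A : List (List Bool), C A → g (bits A) = (numLE A).bits := by
  constructor
  · intro h
    exact ⟨_, h _ mem_all, fun A _ => by rw [strFn_bits]⟩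
  · rintro ⟨g, hg, h⟩ f hf
    exact sharpP_le_of_nred nred_sat_le ⟨g, hg, fun A hA => h A (hC A hA)⟩ f hf

end Pool.Agent.NPC.LE887
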