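import Pool.Agent.W887.LE.Count

/-!
# The permanent as an extrapolated value
-/

set_option linter.unusedSectionVars false

namespace Pool.Agent.W887.LE

open Finset

/-- the weight of a gap with `n` items, as a polynomial -/
noncomputable def wp (n : ℕ) : Polynomial ℚ :=
  (ascPochhammer ℚ n).comp (Polynomial.C 3 * Polynomial.X + Polynomial.C 2)

theorem wp_nat (n M : ℕ) : (wp n).eval (M : ℚ) = ((3 * M + 2).ascFactorial n : ℕ) := by
  rw [wp, Polynomial.eval_comp]
  have h : (Polynomial.C 3 * Polynomial.X + Polynomial.C 2 : Polynomial ℚ).eval (M : ℚ) =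
      ((3 * M + 2 : ℕ) : ℚ) := by
    simp
  rw [h, ← ascPochhammer_nat_eq_ascFactorial, ascPochhammer_eval_cast]

theorem wp_neg_one (n : ℕ) : (wp n).eval (-1 : ℚ) = if n ≤ 1 then (-1) ^ n else 0 := by
  rw [wp, Polynomial.eval_comp]
  have h : (Polynomial.C 3 * Polynomial.X + Polynomial.C 2 : Polynomial ℚ).eval (-1 : ℚ) = -1 := by
    simp
    norm_num
  rw [h]
  rcases n with _ | _ | n
  · simp
  · simp [ascPochhammer_succ_eval]
  · rw [if_neg (by omega)]
    induction n with
    | zero => simp [ascPochhammer_succ_eval]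
    | succ n ih => rw [ascPochhammer_succ_eval, ih, zero_mul]

theorem wp_natDegree (n : ℕ) : (wp n).natDegree ≤ n := by
  rw [wp]
  refine Polynomial.natDegree_comp_le.trans ?_
  rw [ascPochhammer_natDegree]
  have h : (Polynomial.C 3 * Polynomial.X + Polynomial.C 2 : Polynomial ℚ).natDegree ≤ 1 :=
    Polynomial.natDegree_linear_le
  calc n * _ ≤ n * 1 := Nat.mul_le_mul_left _ h
    _ = n := mul_one n

theorem extrap (N : ℕ) (p : Polynomial ℚ) (h : p.natDegree < N + 1) :
    ∑ t ∈ range (N + 2), (-1 : ℚ) ^ t * ((N + 1).choose t) * p.eval ((N : ℚ) - t) = 0 := by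
  have h0 := congrFun (Polynomial.fwdDiff_iter_eq_zero_of_degree_lt h) (-1 : ℚ)
  rw [fwdDiff_iter_eq_sum_shift] at h0
  simp only [Pi.zero_apply] at h0
  rw [← Finset.sum_range_reflect] at h0
  rw [← h0]
  refine Finset.sum_congr rfl fun t ht => ?_
  rw [mem_range] at ht
  have e1 : N + 1 - (N + 1 + 1 - 1 - t) = t := by omega
  have e2 : (N + 1).choose (N + 1 + 1 - 1 - t) = (N + 1).choose t := by
    rw [show N + 1 + 1 - 1 - t = N + 1 - t by omega, Nat.choose_symm (by omega)]
  have e3 : (-1 : ℚ) + (N + 1 + 1 - 1 - t) • (1 : ℚ) = (N : ℚ) - t := by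
    rw [show N + 1 + 1 - 1 - t = N + 1 - t by omega, nsmul_eq_mul, Nat.cast_sub (by omega)]
    push_cast
    ring
  rw [e1, e2, e3, zsmul_eq_mul]
  push_cast
  ring

section Sum

variable {N : ℕ}

/-- number of items in the gap `t` -/
def cnt {α : Type*} [Fintype α] (g : α → ℕ) (t : ℕ) : ℕ := Fintype.card {i // g i = t}

theorem sum_cnt {α : Type*} [Fintype α] (g : α → ℕ) (hg : ∀ i, g i < N) :
    ∑ t ∈ range N, cnt g t = Fintype.card α := by
  classical
  have h := Finset.card_eq_sum_card_fiberwise (s := (univ : Finset α)) (f := g) (t := range N)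
    (fun i _ => by simpa using hg i)
  rw [Finset.card_univ] at h
  rw [h]
  refine Finset.sum_congr rfl fun t _ => ?_
  rw [cnt, Fintype.card_subtype]

/-- normalised number of linear extensions with `3 M + 1` fillers in every gap -/
noncomputable def V (S : Fin N → Finset ℕ) (M : ℕ) : ℕ :=
  ∑ g ∈ Fintype.piFinset S, ∏ t ∈ range N, (3 * M + 2).ascFactorial (cnt g t)

theorem ident (S : Fin N → Finset ℕ) (hS : ∀ i, ∀ t ∈ S i, t < N) :
    ∑ t ∈ range (N + 2), (-1 : ℤ) ^ t * ((N + 1).choose t) *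
      ((if t ≤ N then V S (N - t) else 0 : ℕ) : ℤ) =
      ((Fintype.piFinset S).filter (fun g => Function.Injective g)).card := by
  classical
  set P : Polynomial ℚ := ∑ g ∈ Fintype.piFinset S, ∏ t ∈ range N, wp (cnt g t) with hP
  have hdeg : P.natDegree < N + 1 := by
    rw [Nat.lt_succ_iff, hP]
    refine Polynomial.natDegree_sum_le_of_forall_le _ _ fun g hg => ?_
    refine (Polynomial.natDegree_prod_le _ _).trans ?_
    refine (Finset.sum_le_sum fun t _ => wp_natDegree _).trans ?_
    rw [sum_cnt g (fun i => hS i _ (Fintype.mem_piFinset.1 hg i)), Fintype.card_fin]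
  have h0 := extrap N P hdeg
  rw [Finset.sum_range_succ] at h0
  have h1 : P.eval ((N : ℚ) - (N + 1 : ℕ)) =
      (-1) ^ N * ((Fintype.piFinset S).filter (fun g => Function.Injective g)).card := by
    have e : (N : ℚ) - (N + 1 : ℕ) = -1 := by push_cast; ring
    rw [e, hP, Polynomial.eval_finsetSum, Finset.card_filter]
    push_cast
    rw [Finset.mul_sum]
    refine Finset.sum_congr rfl fun g hg => ?_
    rw [Polynomial.eval_prod]
    have hgN : ∀ i, g i < N := fun i => hS i _ (Fintype.mem_piFinset.1 hg i)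
    by_cases hinj : Function.Injective g
    · rw [if_pos hinj, mul_one]
      have hc : ∀ t, cnt g t ≤ 1 := by
        intro t
        rw [cnt, Fintype.card_le_one_iff]
        rintro ⟨a, ha⟩ ⟨b, hb⟩
        exact Subtype.ext (hinj (ha.trans hb.symm))
      have h2 : ∀ t ∈ range N, (wp (cnt g t)).eval (-1 : ℚ) = (-1) ^ (cnt g t) := fun t _ => by
        rw [wp_neg_one, if_pos (hc t)]
      rw [Finset.prod_congr rfl h2, Finset.prod_pow_eq_pow_sum, sum_cnt g hgN, Fintype.card_fin]
    · rw [if_neg hinj, mul_zero]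
      simp only [Function.Injective, not_forall] at hinj
      obtain ⟨a, b, hab, hne⟩ := hinj
      refine Finset.prod_eq_zero (i := g a) (mem_range.2 (hgN a)) ?_
      rw [wp_neg_one, if_neg]
      intro hle
      rw [cnt, Fintype.card_le_one_iff] at hle
      exact hne (congrArg Subtype.val (hle ⟨a, rfl⟩ ⟨b, hab.symm⟩))
  have h2 : ∀ M : ℕ, (V S M : ℚ) = P.eval (M : ℚ) := by
    intro M
    rw [V, hP, Polynomial.eval_finsetSum]
    push_cast
    refine Finset.sum_congr rfl fun g _ => ?_
    rw [Polynomial.eval_prod]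
    exact Finset.prod_congr rfl fun t _ => (wp_nat _ _).symm
  have h3 : ((∑ t ∈ range (N + 2), (-1 : ℤ) ^ t * ((N + 1).choose t) *
      ((if t ≤ N then V S (N - t) else 0 : ℕ) : ℤ) : ℤ) : ℚ) =
      ∑ t ∈ range (N + 1), (-1 : ℚ) ^ t * ((N + 1).choose t) * P.eval ((N : ℚ) - t) := by
    rw [Finset.sum_range_succ, if_neg (by omega)]
    push_cast
    rw [mul_zero, add_zero]
    refine Finset.sum_congr rfl fun t ht => ?_
    rw [mem_range] at ht
    rw [if_pos (by omega), h2, Nat.cast_sub (by omega)]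
  have h4 : ((∑ t ∈ range (N + 2), (-1 : ℤ) ^ t * ((N + 1).choose t) *
      ((if t ≤ N then V S (N - t) else 0 : ℕ) : ℤ) : ℤ) : ℚ) =
      (((Fintype.piFinset S).filter (fun g => Function.Injective g)).card : ℤ) := by
    rw [h3]
    have h5 : ∑ t ∈ range (N + 1), (-1 : ℚ) ^ t * ((N + 1).choose t) * P.eval ((N : ℚ) - t) =
        - ((-1 : ℚ) ^ (N + 1) * ((N + 1).choose (N + 1)) * P.eval ((N : ℚ) - (N + 1 : ℕ))) := by
      linarith
    rw [h5, h1, Nat.choose_self]
    push_cast
    have h6 : (-1 : ℚ) ^ N * (-1) ^ N = 1 := by rw [← mul_pow]; norm_num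
    rw [pow_succ]
    calc _ = ((-1 : ℚ) ^ N * (-1) ^ N) *
          (((Fintype.piFinset S).filter (fun g => Function.Injective g)).card : ℚ) := by ring
      _ = _ := by rw [h6, one_mul]
  exact_mod_cast h4

end Sum

end Pool.Agent.W887.LE
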