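import Pool.Agent.W887.LE.Red
import Pool.Agent.W887.CG.Mem

/-!
# Counting linear extensions is in `#P`
-/

namespace Pool.Agent.NPC.LE887

open Pool.Agent.H549R2.Convex (ent F Consec F_eq_card')
open Pool.Agent.NPC.Cnt Pool.Agent.W887.LE Pool.Agent.NPC.H549NRed
open Pool.Agent.NPC.H549Convex (LL fp_of_poly upoly_fact ent_poly poly_prod sqB_poly sqB)
open Pool.Agent.NPC.CG887 (all_p)

/-- three indices -/
abbrev T3 : Type := ((LL × ℕ) × ℕ) × ℕ

/-- quantifier over the indices -/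
def allL (A : LL) (p : ℕ → Bool) : Bool := (List.range A.length).all p

/-- existential quantifier over the indices -/
def exL (A : LL) (p : ℕ → Bool) : Bool := !allL A fun x => !p x

theorem allL_iff (A : LL) (p : ℕ → Bool) : allL A p = true ↔ ∀ i : Fin A.length, p i.val = true := by
  rw [allL, List.all_eq_true]
  constructor
  · intro h i
    exact h i.val (List.mem_range.2 i.2)
  · intro h i hi
    exact h ⟨i, List.mem_range.1 hi⟩

theorem exL_iff (A : LL) (p : ℕ → Bool) : exL A p = true ↔ ∃ i : Fin A.length, p i.val = true := by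
  rw [exL, Bool.not_eq_true', ← Bool.not_eq_true, allL_iff]
  push Not
  simp

theorem allL_poly {α : Type} [TEnc α] {A : α → LL} {p : α → ℕ → Bool} (hA : Poly A)
    (hp : Poly (fun z : α × ℕ => p z.1 z.2)) : Poly (fun a => allL (A a) (p a)) :=
  all_p (n := fun a => (A a).length) (UPoly.length hA) hp

theorem exL_poly {α : Type} [TEnc α] {A : α → LL} {p : α → ℕ → Bool} (hA : Poly A)
    (hp : Poly (fun z : α × ℕ => p z.1 z.2)) : Poly (fun a => exL (A a) (p a)) :=
  Poly.not (allL_poly (p := fun a x => !p a x) hA (Poly.not hp))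

theorem ent_p {α : Type} [TEnc α] {A : α → LL} {x y : α → ℕ} (hA : Poly A) (hx : Poly x)
    (hy : Poly y) : Poly (fun a => ent (A a) (x a) (y a)) :=
  ent_poly.comp (f := fun a => (A a, x a, y a)) (Poly.pair hA (Poly.pair hx hy))

/-- test for the covering relation -/
def covB (A : LL) (a b : ℕ) : Bool := ent A a b && allL A fun z => !(ent A a z && ent A z b)

theorem covB_iff (A : LL) (a b : Fin A.length) : covB A a b = true ↔ Cov (rel A) a b := by
  rw [covB, Bool.and_eq_true, allL_iff]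
  unfold Cov rel
  refine and_congr Iff.rfl (forall_congr' fun z => ?_)
  cases ent A a z <;> simp

theorem covB_poly {α : Type} [TEnc α] {A : α → LL} {x y : α → ℕ} (hA : Poly A) (hx : Poly x)
    (hy : Poly y) : Poly (fun a => covB (A a) (x a) (y a)) := by
  have hA' : Poly (fun z : α × ℕ => A z.1) := hA.comp (Poly.fst Poly.id)
  have hx' : Poly (fun z : α × ℕ => x z.1) := hx.comp (Poly.fst Poly.id)
  have hy' : Poly (fun z : α × ℕ => y z.1) := hy.comp (Poly.fst Poly.id)
  exact Poly.and (ent_p hA hx hy) (allL_poly (p := fun a z => !(ent (A a) (x a) z &&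
    ent (A a) z (y a))) hA (Poly.not (Poly.and (ent_p hA' hx' (Poly.snd Poly.id))
      (ent_p hA' (Poly.snd Poly.id) hy'))))

/-- test for the non-strict relation -/
def leB (A : LL) (a b : ℕ) : Bool := decide (a = b) || ent A a b

theorem leB_iff (A : LL) (a b : Fin A.length) : leB A a b = true ↔ Leq (rel A) a b := by
  unfold leB Leq rel
  rw [Bool.or_eq_true, decide_eq_true_eq, Fin.ext_iff]

theorem leB_poly {α : Type} [TEnc α] {A : α → LL} {x y : α → ℕ} (hA : Poly A) (hx : Poly x)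
    (hy : Poly y) : Poly (fun a => leB (A a) (x a) (y a)) :=
  Poly.or (Poly.decide_eq hx hy) (ent_p hA hx hy)

/-- test for interval orders -/
def ioB (A : LL) : Bool :=
  allL A fun a => !ent A a a && allL A fun b => allL A fun c => allL A fun d =>
    !(ent A a b && ent A c d) || (ent A a d || ent A c b)

theorem io_iff {α : Type} [Finite α] (R : α → α → Prop) : IsIntervalOrder R ↔
    ∀ a, ¬ R a a ∧ ∀ b c d, R a b → R c d → R a d ∨ R c b := by
  classical
  cases nonempty_fintype α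
  constructor
  · rintro ⟨l, r, h1, h2⟩ a
    refine ⟨fun h => ?_, fun b c d hab hcd => ?_⟩
    · rw [h2] at h
      exact absurd (h1 a) (not_le.2 h)
    · rw [h2] at hab hcd ⊢
      rw [h2]
      rcases lt_or_ge (r a) (l d) with h | h
      · exact Or.inl h
      · exact Or.inr (hcd.trans_le (h.trans hab.le))
  · intro h
    let D : α → Finset α := fun y => Finset.univ.filter fun x => R x y
    have hD : ∀ x y, x ∈ D y ↔ R x y := fun x y => by simp [D]
    have hir : ∀ x, ¬ R x x := fun x => (h x).1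
    let Z : α → Finset α := fun x => Finset.univ.filter fun z => ¬ R x z
    have hZ : ∀ x z, z ∈ Z x ↔ ¬ R x z := fun x z => by simp [Z]
    refine ⟨fun y => ((D y).card : ℝ), fun x => (((Z x).sup fun z => (D z).card : ℕ) : ℝ),
      fun x => ?_, fun x y => ?_⟩
    · exact Nat.cast_le.2 (Finset.le_sup (f := fun z => (D z).card) ((hZ x x).2 (hir x)))
    · rw [Nat.cast_lt]
      constructor
      · intro hxy
        have hpos : 0 < (D y).card := Finset.card_pos.2 ⟨x, (hD x y).2 hxy⟩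
        rw [Finset.sup_lt_iff hpos]
        intro z hz
        rw [hZ] at hz
        refine Finset.card_lt_card (Finset.ssubset_iff_subset_ne.2 ⟨fun w hw => ?_, fun heq => ?_⟩)
        · rw [hD] at hw ⊢
          rcases (h w).2 z x y hw hxy with h1 | h1
          · exact h1
          · exact absurd h1 hz
        · have : x ∈ D z := by rw [heq, hD]; exact hxy
          rw [hD] at this
          exact hz this
      · intro hlt
        by_contra hxy
        have := Finset.le_sup (f := fun z => (D z).card) ((hZ x y).2 hxy)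
        exact absurd hlt (not_lt.2 this)

theorem ioB_iff (A : LL) : ioB A = true ↔ IsIntervalOrder (rel A) := by
  rw [io_iff, ioB, allL_iff]
  refine forall_congr' fun a => ?_
  rw [Bool.and_eq_true, allL_iff]
  refine and_congr (by unfold rel; simp) (forall_congr' fun b => ?_)
  rw [allL_iff]
  refine forall_congr' fun c => ?_
  rw [allL_iff]
  refine forall_congr' fun d => ?_
  unfold rel
  cases ent A a b <;> cases ent A c d <;> cases ent A a d <;> cases ent A c b <;> simp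

/-- test for `N`-free posets -/
def nfB (A : LL) : Bool :=
  allL A fun a => allL A fun b => allL A fun c => allL A fun d =>
    !(covB A a c && (covB A b c && covB A b d)) || (decide (a = b) || decide (c = d))

theorem nfB_iff (A : LL) : nfB A = true ↔ NFree (rel A) := by
  unfold nfB NFree
  rw [allL_iff]
  refine forall_congr' fun a => ?_
  rw [allL_iff]
  refine forall_congr' fun b => ?_
  rw [allL_iff]
  refine forall_congr' fun c => ?_
  rw [allL_iff]
  refine forall_congr' fun d => ?_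
  rw [← covB_iff, ← covB_iff, ← covB_iff, Fin.ext_iff, Fin.ext_iff]
  cases covB A a c <;> cases covB A b c <;> cases covB A b d <;> simp

/-- test for lattices -/
def latB (A : LL) : Bool :=
  allL A fun a => allL A fun b =>
    (exL A fun c => leB A a c && (leB A b c && allL A fun d =>
      !(leB A a d && leB A b d) || leB A c d)) &&
    (exL A fun c => leB A c a && (leB A c b && allL A fun d =>
      !(leB A d a && leB A d b) || leB A d c))

theorem latB_iff (A : LL) : latB A = true ↔ IsLatticeRel (rel A) := by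
  unfold latB IsLatticeRel
  rw [allL_iff]
  refine forall_congr' fun a => ?_
  rw [allL_iff]
  refine forall_congr' fun b => ?_
  rw [Bool.and_eq_true, exL_iff, exL_iff]
  refine and_congr (exists_congr fun c => ?_) (exists_congr fun c => ?_)
  · rw [Bool.and_eq_true, Bool.and_eq_true, allL_iff, leB_iff, leB_iff]
    refine and_congr Iff.rfl (and_congr Iff.rfl (forall_congr' fun d => ?_))
    rw [← leB_iff, ← leB_iff, ← leB_iff]
    cases leB A a d <;> cases leB A b d <;> simp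
  · rw [Bool.and_eq_true, Bool.and_eq_true, allL_iff, leB_iff, leB_iff]
    refine and_congr Iff.rfl (and_congr Iff.rfl (forall_congr' fun d => ?_))
    rw [← leB_iff, ← leB_iff, ← leB_iff]
    cases leB A d a <;> cases leB A d b <;> simp

/-- test for the class -/
def goodB (A : LL) : Bool := sqB A && (ioB A && (nfB A && latB A))

theorem sqB_iff' (A : LL) : sqB A = true ↔ ∀ r ∈ A, r.length = A.length := by
  rw [sqB, List.all_eq_true]
  simp

theorem goodB_iff (A : LL) : goodB A = true ↔ Good A := by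
  rw [goodB, Bool.and_eq_true, Bool.and_eq_true, Bool.and_eq_true, sqB_iff', ioB_iff, nfB_iff,
    latB_iff]
  rfl

theorem ioB_poly : Poly ioB := by
  have h4 : Poly (fun z : (((LL × ℕ) × ℕ) × ℕ) × ℕ =>
      !(ent z.1.1.1.1 z.1.1.1.2 z.1.1.2 && ent z.1.1.1.1 z.1.2 z.2) ||
        (ent z.1.1.1.1 z.1.1.1.2 z.2 || ent z.1.1.1.1 z.1.2 z.1.1.2)) := by
    have hA : Poly (fun z : (((LL × ℕ) × ℕ) × ℕ) × ℕ => z.1.1.1.1) :=
      Poly.fst (Poly.fst (Poly.fst (Poly.fst Poly.id)))
    have ha : Poly (fun z : (((LL × ℕ) × ℕ) × ℕ) × ℕ => z.1.1.1.2) :=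
      Poly.snd (Poly.fst (Poly.fst (Poly.fst Poly.id)))
    have hb : Poly (fun z : (((LL × ℕ) × ℕ) × ℕ) × ℕ => z.1.1.2) :=
      Poly.snd (Poly.fst (Poly.fst Poly.id))
    have hc : Poly (fun z : (((LL × ℕ) × ℕ) × ℕ) × ℕ => z.1.2) := Poly.snd (Poly.fst Poly.id)
    have hd : Poly (fun z : (((LL × ℕ) × ℕ) × ℕ) × ℕ => z.2) := Poly.snd Poly.id
    exact Poly.or (Poly.not (Poly.and (ent_p hA ha hb) (ent_p hA hc hd)))
      (Poly.or (ent_p hA ha hd) (ent_p hA hc hb))
  have h3 : Poly (fun z : ((LL × ℕ) × ℕ) × ℕ => allL z.1.1.1 fun d =>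
      !(ent z.1.1.1 z.1.1.2 z.1.2 && ent z.1.1.1 z.2 d) ||
        (ent z.1.1.1 z.1.1.2 d || ent z.1.1.1 z.2 z.1.2)) :=
    allL_poly (A := fun z : ((LL × ℕ) × ℕ) × ℕ => z.1.1.1)
      (p := fun (z : ((LL × ℕ) × ℕ) × ℕ) d => !(ent z.1.1.1 z.1.1.2 z.1.2 && ent z.1.1.1 z.2 d) ||
        (ent z.1.1.1 z.1.1.2 d || ent z.1.1.1 z.2 z.1.2))
      (Poly.fst (Poly.fst (Poly.fst Poly.id))) h4
  have h2 : Poly (fun z : (LL × ℕ) × ℕ => allL z.1.1 fun c => allL z.1.1 fun d =>
      !(ent z.1.1 z.1.2 z.2 && ent z.1.1 c d) || (ent z.1.1 z.1.2 d || ent z.1.1 c z.2)) :=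
    allL_poly (A := fun z : (LL × ℕ) × ℕ => z.1.1)
      (p := fun (z : (LL × ℕ) × ℕ) c => allL z.1.1 fun d =>
        !(ent z.1.1 z.1.2 z.2 && ent z.1.1 c d) || (ent z.1.1 z.1.2 d || ent z.1.1 c z.2))
      (Poly.fst (Poly.fst Poly.id)) h3
  have h1 : Poly (fun z : LL × ℕ => allL z.1 fun b => allL z.1 fun c => allL z.1 fun d =>
      !(ent z.1 z.2 b && ent z.1 c d) || (ent z.1 z.2 d || ent z.1 c b)) :=
    allL_poly (A := fun z : LL × ℕ => z.1)
      (p := fun (z : LL × ℕ) b => allL z.1 fun c => allL z.1 fun d =>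
        !(ent z.1 z.2 b && ent z.1 c d) || (ent z.1 z.2 d || ent z.1 c b))
      (Poly.fst Poly.id) h2
  exact allL_poly (A := fun A : LL => A) (p := fun (A : LL) a => !ent A a a && allL A fun b =>
    allL A fun c => allL A fun d => !(ent A a b && ent A c d) || (ent A a d || ent A c b)) Poly.id
    (Poly.and (Poly.not (ent_p (Poly.fst Poly.id) (Poly.snd Poly.id) (Poly.snd Poly.id))) h1)

theorem nfB_poly : Poly nfB := by
  have h4 : Poly (fun z : (((LL × ℕ) × ℕ) × ℕ) × ℕ =>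
      !(covB z.1.1.1.1 z.1.1.1.2 z.1.2 && (covB z.1.1.1.1 z.1.1.2 z.1.2 &&
        covB z.1.1.1.1 z.1.1.2 z.2)) || (decide (z.1.1.1.2 = z.1.1.2) || decide (z.1.2 = z.2))) := by
    have hA : Poly (fun z : (((LL × ℕ) × ℕ) × ℕ) × ℕ => z.1.1.1.1) :=
      Poly.fst (Poly.fst (Poly.fst (Poly.fst Poly.id)))
    have ha : Poly (fun z : (((LL × ℕ) × ℕ) × ℕ) × ℕ => z.1.1.1.2) :=
      Poly.snd (Poly.fst (Poly.fst (Poly.fst Poly.id)))
    have hb : Poly (fun z : (((LL × ℕ) × ℕ) × ℕ) × ℕ => z.1.1.2) :=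
      Poly.snd (Poly.fst (Poly.fst Poly.id))
    have hc : Poly (fun z : (((LL × ℕ) × ℕ) × ℕ) × ℕ => z.1.2) := Poly.snd (Poly.fst Poly.id)
    have hd : Poly (fun z : (((LL × ℕ) × ℕ) × ℕ) × ℕ => z.2) := Poly.snd Poly.id
    exact Poly.or (Poly.not (Poly.and (covB_poly hA ha hc) (Poly.and (covB_poly hA hb hc)
      (covB_poly hA hb hd)))) (Poly.or (Poly.decide_eq ha hb) (Poly.decide_eq hc hd))
  have h3 : Poly (fun z : ((LL × ℕ) × ℕ) × ℕ => allL z.1.1.1 fun d =>
      !(covB z.1.1.1 z.1.1.2 z.2 && (covB z.1.1.1 z.1.2 z.2 &&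
        covB z.1.1.1 z.1.2 d)) || (decide (z.1.1.2 = z.1.2) || decide (z.2 = d))) :=
    allL_poly (A := fun z : ((LL × ℕ) × ℕ) × ℕ => z.1.1.1)
      (p := fun (z : ((LL × ℕ) × ℕ) × ℕ) d => !(covB z.1.1.1 z.1.1.2 z.2 &&
        (covB z.1.1.1 z.1.2 z.2 && covB z.1.1.1 z.1.2 d)) ||
          (decide (z.1.1.2 = z.1.2) || decide (z.2 = d)))
      (Poly.fst (Poly.fst (Poly.fst Poly.id))) h4
  have h2 : Poly (fun z : (LL × ℕ) × ℕ => allL z.1.1 fun c => allL z.1.1 fun d =>
      !(covB z.1.1 z.1.2 c && (covB z.1.1 z.2 c && covB z.1.1 z.2 d)) ||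
        (decide (z.1.2 = z.2) || decide (c = d))) :=
    allL_poly (A := fun z : (LL × ℕ) × ℕ => z.1.1)
      (p := fun (z : (LL × ℕ) × ℕ) c => allL z.1.1 fun d =>
        !(covB z.1.1 z.1.2 c && (covB z.1.1 z.2 c && covB z.1.1 z.2 d)) ||
          (decide (z.1.2 = z.2) || decide (c = d)))
      (Poly.fst (Poly.fst Poly.id)) h3
  have h1 : Poly (fun z : LL × ℕ => allL z.1 fun b => allL z.1 fun c => allL z.1 fun d =>
      !(covB z.1 z.2 c && (covB z.1 b c && covB z.1 b d)) ||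
        (decide (z.2 = b) || decide (c = d))) :=
    allL_poly (A := fun z : LL × ℕ => z.1)
      (p := fun (z : LL × ℕ) b => allL z.1 fun c => allL z.1 fun d =>
        !(covB z.1 z.2 c && (covB z.1 b c && covB z.1 b d)) ||
          (decide (z.2 = b) || decide (c = d)))
      (Poly.fst Poly.id) h2
  exact allL_poly (A := fun A : LL => A) (p := fun (A : LL) a => allL A fun b =>
    allL A fun c => allL A fun d => !(covB A a c && (covB A b c && covB A b d)) ||
      (decide (a = b) || decide (c = d))) Poly.id h1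

theorem latB_poly : Poly latB := by
  have hA : Poly (fun z : (((LL × ℕ) × ℕ) × ℕ) × ℕ => z.1.1.1.1) :=
    Poly.fst (Poly.fst (Poly.fst (Poly.fst Poly.id)))
  have ha : Poly (fun z : (((LL × ℕ) × ℕ) × ℕ) × ℕ => z.1.1.1.2) :=
    Poly.snd (Poly.fst (Poly.fst (Poly.fst Poly.id)))
  have hb : Poly (fun z : (((LL × ℕ) × ℕ) × ℕ) × ℕ => z.1.1.2) :=
    Poly.snd (Poly.fst (Poly.fst Poly.id))
  have hc : Poly (fun z : (((LL × ℕ) × ℕ) × ℕ) × ℕ => z.1.2) := Poly.snd (Poly.fst Poly.id)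
  have hd : Poly (fun z : (((LL × ℕ) × ℕ) × ℕ) × ℕ => z.2) := Poly.snd Poly.id
  have gA : Poly (fun z : ((LL × ℕ) × ℕ) × ℕ => z.1.1.1) :=
    Poly.fst (Poly.fst (Poly.fst Poly.id))
  have ga : Poly (fun z : ((LL × ℕ) × ℕ) × ℕ => z.1.1.2) := Poly.snd (Poly.fst (Poly.fst Poly.id))
  have gb : Poly (fun z : ((LL × ℕ) × ℕ) × ℕ => z.1.2) := Poly.snd (Poly.fst Poly.id)
  have gc : Poly (fun z : ((LL × ℕ) × ℕ) × ℕ => z.2) := Poly.snd Poly.id
  have u4 : Poly (fun z : (((LL × ℕ) × ℕ) × ℕ) × ℕ =>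
      !(leB z.1.1.1.1 z.1.1.1.2 z.2 && leB z.1.1.1.1 z.1.1.2 z.2) || leB z.1.1.1.1 z.1.2 z.2) :=
    Poly.or (Poly.not (Poly.and (leB_poly hA ha hd) (leB_poly hA hb hd))) (leB_poly hA hc hd)
  have d4 : Poly (fun z : (((LL × ℕ) × ℕ) × ℕ) × ℕ =>
      !(leB z.1.1.1.1 z.2 z.1.1.1.2 && leB z.1.1.1.1 z.2 z.1.1.2) || leB z.1.1.1.1 z.2 z.1.2) :=
    Poly.or (Poly.not (Poly.and (leB_poly hA hd ha) (leB_poly hA hd hb))) (leB_poly hA hd hc)
  have u3 : Poly (fun z : ((LL × ℕ) × ℕ) × ℕ => leB z.1.1.1 z.1.1.2 z.2 &&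
      (leB z.1.1.1 z.1.2 z.2 && allL z.1.1.1 fun d =>
        !(leB z.1.1.1 z.1.1.2 d && leB z.1.1.1 z.1.2 d) || leB z.1.1.1 z.2 d)) :=
    Poly.and (leB_poly gA ga gc) (Poly.and (leB_poly gA gb gc)
      (allL_poly (A := fun z : ((LL × ℕ) × ℕ) × ℕ => z.1.1.1)
        (p := fun (z : ((LL × ℕ) × ℕ) × ℕ) d =>
          !(leB z.1.1.1 z.1.1.2 d && leB z.1.1.1 z.1.2 d) || leB z.1.1.1 z.2 d) gA u4))
  have d3 : Poly (fun z : ((LL × ℕ) × ℕ) × ℕ => leB z.1.1.1 z.2 z.1.1.2 &&
      (leB z.1.1.1 z.2 z.1.2 && allL z.1.1.1 fun d =>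
        !(leB z.1.1.1 d z.1.1.2 && leB z.1.1.1 d z.1.2) || leB z.1.1.1 d z.2)) :=
    Poly.and (leB_poly gA gc ga) (Poly.and (leB_poly gA gc gb)
      (allL_poly (A := fun z : ((LL × ℕ) × ℕ) × ℕ => z.1.1.1)
        (p := fun (z : ((LL × ℕ) × ℕ) × ℕ) d =>
          !(leB z.1.1.1 d z.1.1.2 && leB z.1.1.1 d z.1.2) || leB z.1.1.1 d z.2) gA d4))
  have h2 : Poly (fun z : (LL × ℕ) × ℕ =>
      (exL z.1.1 fun c => leB z.1.1 z.1.2 c && (leB z.1.1 z.2 c && allL z.1.1 fun d =>
        !(leB z.1.1 z.1.2 d && leB z.1.1 z.2 d) || leB z.1.1 c d)) &&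
      (exL z.1.1 fun c => leB z.1.1 c z.1.2 && (leB z.1.1 c z.2 && allL z.1.1 fun d =>
        !(leB z.1.1 d z.1.2 && leB z.1.1 d z.2) || leB z.1.1 d c))) :=
    Poly.and
      (exL_poly (A := fun z : (LL × ℕ) × ℕ => z.1.1)
        (p := fun (z : (LL × ℕ) × ℕ) c => leB z.1.1 z.1.2 c && (leB z.1.1 z.2 c &&
          allL z.1.1 fun d => !(leB z.1.1 z.1.2 d && leB z.1.1 z.2 d) || leB z.1.1 c d))
        (Poly.fst (Poly.fst Poly.id)) u3)
      (exL_poly (A := fun z : (LL × ℕ) × ℕ => z.1.1)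
        (p := fun (z : (LL × ℕ) × ℕ) c => leB z.1.1 c z.1.2 && (leB z.1.1 c z.2 &&
          allL z.1.1 fun d => !(leB z.1.1 d z.1.2 && leB z.1.1 d z.2) || leB z.1.1 d c))
        (Poly.fst (Poly.fst Poly.id)) d3)
  have h1 : Poly (fun z : LL × ℕ => allL z.1 fun b =>
      (exL z.1 fun c => leB z.1 z.2 c && (leB z.1 b c && allL z.1 fun d =>
        !(leB z.1 z.2 d && leB z.1 b d) || leB z.1 c d)) &&
      (exL z.1 fun c => leB z.1 c z.2 && (leB z.1 c b && allL z.1 fun d =>
        !(leB z.1 d z.2 && leB z.1 d b) || leB z.1 d c))) :=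
    allL_poly (A := fun z : LL × ℕ => z.1)
      (p := fun (z : LL × ℕ) b =>
        (exL z.1 fun c => leB z.1 z.2 c && (leB z.1 b c && allL z.1 fun d =>
          !(leB z.1 z.2 d && leB z.1 b d) || leB z.1 c d)) &&
        (exL z.1 fun c => leB z.1 c z.2 && (leB z.1 c b && allL z.1 fun d =>
          !(leB z.1 d z.2 && leB z.1 d b) || leB z.1 d c)))
      (Poly.fst Poly.id) h2
  exact allL_poly (A := fun A : LL => A) (p := fun (A : LL) a => allL A fun b =>
    (exL A fun c => leB A a c && (leB A b c && allL A fun d =>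
      !(leB A a d && leB A b d) || leB A c d)) &&
    (exL A fun c => leB A c a && (leB A c b && allL A fun d =>
      !(leB A d a && leB A d b) || leB A d c))) Poly.id h1

theorem goodB_poly : Poly goodB :=
  Poly.and sqB_poly (Poly.and ioB_poly (Poly.and nfB_poly latB_poly))

end Pool.Agent.NPC.LE887
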