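import Pool.Agent.W887.LE.Ident
import Pool.Agent.H549R2.Convex3

/-!
# Posets given by matrices; the posets attached to a 0-1 matrix
-/

set_option linter.unusedSectionVars false

namespace Pool.Agent.W887.LE

open Finset Pool.Agent.H549R2.Convex

/-- the strict relation given by a matrix -/
def rel (A : List (List Bool)) (i j : Fin A.length) : Prop := ent A i.val j.val = true

/-- The relation comes from closed intervals of the line: `i` is below `j` if the interval of `i`
lies to the left of the interval of `j`. -/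
def IsIntervalOrder {α : Type} (R : α → α → Prop) : Prop :=
  ∃ l r : α → ℝ, (∀ i, l i ≤ r i) ∧ ∀ i j, R i j ↔ r i < l j

/-- covering relation -/
def Cov {α : Type} (R : α → α → Prop) (a b : α) : Prop := R a b ∧ ∀ z, ¬ (R a z ∧ R z b)

/-- the Hasse diagram contains no `N` (zigzag of three edges) -/
def NFree {α : Type} (R : α → α → Prop) : Prop :=
  ∀ a b c d, Cov R a c → Cov R b c → Cov R b d → a = b ∨ c = d

/-- non-strict relation -/
def Leq {α : Type} (R : α → α → Prop) (a b : α) : Prop := a = b ∨ R a b

/-- any two elements have a least upper bound and a greatest lower bound -/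
def IsLatticeRel {α : Type} (R : α → α → Prop) : Prop :=
  ∀ a b, (∃ c, Leq R a c ∧ Leq R b c ∧ ∀ d, Leq R a d → Leq R b d → Leq R c d) ∧
    ∃ c, Leq R c a ∧ Leq R c b ∧ ∀ d, Leq R d a → Leq R d b → Leq R d c

/-- number of linear extensions: bijections onto `{0, …, n-1}` preserving the relation -/
noncomputable def numLE (A : List (List Bool)) : ℕ :=
  Nat.card {σ : Equiv.Perm (Fin A.length) // ∀ i j, rel A i j → σ i < σ j}

/-- the matrix of the interval order given by a list of intervals -/
def posetOf (L : List (ℕ × ℕ)) : List (List Bool) :=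
  L.map fun u => L.map fun v => decide (u.2 < v.1)

theorem posetOf_length (L : List (ℕ × ℕ)) : (posetOf L).length = L.length := by simp [posetOf]

theorem ent_posetOf (L : List (ℕ × ℕ)) (i j : ℕ) (hi : i < L.length) (hj : j < L.length) :
    ent (posetOf L) i j = true ↔ (L.getD i (0, 0)).2 < (L.getD j (0, 0)).1 := by
  have h1 : (posetOf L).getD i [] = L.map (fun v => decide ((L.getD i (0, 0)).2 < v.1)) := by
    rw [posetOf, List.getD_eq_getElem _ _ (by simpa using hi), List.getElem_map,
      List.getD_eq_getElem _ _ hi]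
  rw [ent, h1, List.getD_eq_getElem _ _ (by simpa using hj), List.getElem_map,
    List.getD_eq_getElem L _ hj, decide_eq_true_eq]

theorem numLE_posetOf {β : Type} [Fintype β] [DecidableEq β] (L : List (ℕ × ℕ)) (w : β → ℕ × ℕ)
    (e : Fin L.length ≃ β) (he : ∀ i, L.getD i.val (0, 0) = w (e i)) :
    numLE (posetOf L) =
      Nat.card {σ : β ≃ Fin L.length // ∀ x y, (w x).2 < (w y).1 → σ x < σ y} := by
  have key : ∀ (A : List (List Bool)) (n : ℕ) (hn : A.length = n) (w : Fin n → ℕ × ℕ),
      (∀ i j : Fin n, ent A i.val j.val = true ↔ (w i).2 < (w j).1) →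
      numLE A = Nat.card {σ : Fin n ≃ Fin n // ∀ x y, (w x).2 < (w y).1 → σ x < σ y} := by
    intro A n hn w hw
    subst hn
    unfold numLE rel
    refine Nat.card_congr (Equiv.subtypeEquivRight fun σ => ?_)
    exact forall_congr' fun i => forall_congr' fun j => by rw [hw]
  rw [key (posetOf L) L.length (posetOf_length L) (fun i => w (e i)) (fun i j => by
    rw [ent_posetOf L i j i.2 j.2, he, he])]
  refine Nat.card_congr ⟨fun σ => ⟨e.symm.trans σ.1, fun x y h => ?_⟩,
    fun σ => ⟨e.trans σ.1, fun x y h => ?_⟩, fun σ => ?_, fun σ => ?_⟩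
  · exact σ.2 (e.symm x) (e.symm y) (by simpa using h)
  · exact σ.2 (e x) (e y) h
  · apply Subtype.ext
    ext x
    simp
  · apply Subtype.ext
    ext x
    simp

section Structure

variable {N K : ℕ}

/-- index types: markers; fillers and items -/
abbrev El (N K : ℕ) : Type := Fin (N + 1) ⊕ (Fin N × Fin K ⊕ Fin N)

/-- left gap -/
def lf (lo : ℕ → ℕ) : Fin N × Fin K ⊕ Fin N → ℕ := Sum.elim (fun p => p.1.val) (fun i => lo i.val)

/-- the list of intervals -/
def ivs (N K : ℕ) (lo hi : ℕ → ℕ) : List (ℕ × ℕ) :=
  (List.range (N + 1)).map (fun t => (2 * t, 2 * t)) ++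
    (((List.range N).flatMap fun t => (List.range K).map fun _ => (2 * t + 1, 2 * t + 1)) ++
      (List.range N).map fun i => (2 * lo i + 1, 2 * hi i + 1))

theorem range_map_eq {α : Type*} (f : ℕ → α) (n : ℕ) :
    (List.range n).map f = List.ofFn (fun i : Fin n => f i.val) := by
  apply List.ext_getElem
  · simp
  · intro i h1 h2
    simp

theorem ofFn_sum {γ : Type*} {a b : ℕ} (f : Fin a → γ) (g : Fin b → γ) :
    List.ofFn f ++ List.ofFn g = List.ofFn (fun i => Sum.elim f g (finSumFinEquiv.symm i)) := by
  rw [List.ofFn_add]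
  congr 1
  · congr 1
    funext i
    have h : (Fin.castLE (Nat.le_add_right a b) i) = Fin.castAdd b i := rfl
    rw [h, finSumFinEquiv_symm_apply_castAdd]
    rfl
  · congr 1
    funext i
    simp

theorem ofFn_prod {γ : Type*} {a b : ℕ} (f : Fin a × Fin b → γ) :
    (List.range a).flatMap (fun t => if h : t < a then List.ofFn (fun j : Fin b => f (⟨t, h⟩, j))
      else []) = List.ofFn (fun i => f (finProdFinEquiv.symm i)) := by
  rw [List.ofFn_mul, List.flatMap, range_map_eq]
  congr 1
  congr 1
  funext i
  rw [dif_pos i.2]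
  congr 1
  funext j
  congr 1
  rw [Equiv.eq_symm_apply]
  apply Fin.ext
  simp [finProdFinEquiv]
  ring

/-- enumeration of the elements -/
def en (N K : ℕ) : Fin (N + 1 + (N * K + N)) ≃ El N K :=
  finSumFinEquiv.symm.trans (Equiv.sumCongr (Equiv.refl _)
    (finSumFinEquiv.symm.trans (Equiv.sumCongr finProdFinEquiv.symm (Equiv.refl _))))

theorem ivs_eq (lo hi : ℕ → ℕ) : ivs N K lo hi =
    List.ofFn (fun i => iv (lf (K := K) lo) (lf (K := K) hi) (en N K i)) := by
  have h1 : (List.range N).flatMap (fun t => (List.range K).map fun _ => (2 * t + 1, 2 * t + 1)) =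
      List.ofFn (fun i => (fun p : Fin N × Fin K => (2 * p.1.val + 1, 2 * p.1.val + 1))
        (finProdFinEquiv.symm i)) := by
    rw [← ofFn_prod (fun p : Fin N × Fin K => (2 * p.1.val + 1, 2 * p.1.val + 1))]
    refine List.flatMap_congr fun t ht => ?_
    rw [List.mem_range] at ht
    rw [dif_pos ht, range_map_eq]
  rw [ivs, h1, range_map_eq, range_map_eq, ofFn_sum, ofFn_sum]
  congr 1
  funext i
  rw [en]
  simp only [Equiv.trans_apply]
  rcases finSumFinEquiv.symm i with s | j
  · simp [iv]
  · simp only [Sum.elim_inr, Equiv.sumCongr_apply, Sum.map_inr, Equiv.trans_apply]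
    rcases finSumFinEquiv.symm j with p | k
    · simp [iv, lf]
    · simp [iv, lf]

theorem ivs_length (lo hi : ℕ → ℕ) : (ivs N K lo hi).length = N + 1 + (N * K + N) := by
  rw [ivs_eq, List.length_ofFn]

/-- enumeration of the list -/
def enL (N K : ℕ) (lo hi : ℕ → ℕ) : Fin (ivs N K lo hi).length ≃ El N K :=
  (finCongr (ivs_length lo hi)).trans (en N K)

theorem enL_spec (lo hi : ℕ → ℕ) (i : Fin (ivs N K lo hi).length) :
    (ivs N K lo hi).getD i.val (0, 0) =
      iv (lf (K := K) lo) (lf (K := K) hi) (enL N K lo hi i) := by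
  have h2 : i.val < N + 1 + (N * K + N) := i.2.trans_eq (ivs_length lo hi)
  have h3 : ∀ (L : List (ℕ × ℕ)) (f : Fin (N + 1 + (N * K + N)) → ℕ × ℕ), L = List.ofFn f →
      L.getD i.val (0, 0) = f ⟨i.val, h2⟩ := by
    intro L f h
    subst h
    rw [List.getD_eq_getElem _ _ (by simpa using h2), List.getElem_ofFn]
  rw [h3 _ _ (ivs_eq lo hi)]
  rfl

/-- the number of linear extensions of the posets -/
theorem numLE_ivs (lo hi : ℕ → ℕ) (hhi : ∀ i < N, hi i < N) (hlo : ∀ i < N, lo i ≤ hi i) :
    numLE (posetOf (ivs N K lo hi)) =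
      ∑ g ∈ Fintype.piFinset (fun i : Fin N => Icc (lo i.val) (hi i.val)),
        ∏ t ∈ range N, (K + cnt g t).factorial := by
  rw [numLE_posetOf _ _ (enL N K lo hi) (enL_spec lo hi)]
  rw [card_le (lf (K := K) lo) (lf (K := K) hi)]
  · refine Finset.sum_nbij' (fun f => fun i : Fin N => f (.inr i))
      (fun g => Sum.elim (fun p => p.1.val) g) ?_ ?_ ?_ ?_ ?_
    · intro f hf
      rw [Fintype.mem_piFinset] at hf ⊢
      intro i
      exact hf (.inr i)
    · intro g hg
      rw [Fintype.mem_piFinset] at hg ⊢
      rintro (p | i)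
      · simp [lf]
      · exact hg i
    · intro f hf
      rw [Fintype.mem_piFinset] at hf
      funext x
      rcases x with p | i
      · have := hf (.inl p)
        simp only [lf, Sum.elim_inl, mem_Icc] at this
        simp only [Sum.elim_inl]
        omega
      · rfl
    · intro g _
      rfl
    · intro f hf
      rw [Fintype.mem_piFinset] at hf
      refine Finset.prod_congr rfl fun t ht => ?_
      rw [mem_range] at ht
      congr 1
      have h1 : Fintype.card {a // f a = t} =
          Fintype.card ({p : Fin N × Fin K // p.1.val = t} ⊕ {i : Fin N // f (.inr i) = t}) := by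
        refine Fintype.card_congr ⟨fun x => ?_, fun x => ?_, ?_, ?_⟩
        · rcases x with ⟨p | i, hx⟩
          · refine .inl ⟨p, ?_⟩
            have := hf (.inl p)
            simp only [lf, Sum.elim_inl, mem_Icc] at this
            omega
          · exact .inr ⟨i, hx⟩
        · rcases x with ⟨p, hp⟩ | ⟨i, hi⟩
          · refine ⟨.inl p, ?_⟩
            have := hf (.inl p)
            simp only [lf, Sum.elim_inl, mem_Icc] at this
            omega
          · exact ⟨.inr i, hi⟩
        · rintro ⟨p | i, hx⟩ <;> rfl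
        · rintro (⟨p, hp⟩ | ⟨i, hi⟩) <;> rfl
      rw [h1, Fintype.card_sum]
      congr 1
      have h2 : Fintype.card {p : Fin N × Fin K // p.1.val = t} = Fintype.card (Fin K) := by
        refine Fintype.card_congr ⟨fun p => p.1.2, fun k => ⟨(⟨t, ht⟩, k), rfl⟩, ?_, ?_⟩
        · rintro ⟨⟨a, b⟩, h⟩
          apply Subtype.ext
          simp only at h ⊢
          exact Prod.ext (Fin.ext h.symm) rfl
        · intro k
          rfl
      rw [h2, Fintype.card_fin]
  · rintro (p | i)
    · simp [lf]
    · exact hhi i.val i.2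
  · rintro (p | i)
    · simp [lf]
    · exact hlo i.val i.2
  · rw [ivs_length]
    simp [Fintype.card_sum, Fintype.card_prod, Fintype.card_fin]

end Structure

end Pool.Agent.W887.LE
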