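import Pool.Agent.W887.LE.Class
import Pool.Agent.H549R2.NRed

/-!
# The permanent of matrices with consecutive ones reduces to counting linear extensions
-/

namespace Pool.Agent.NPC.LE887

open Pool.Agent.H549R2.Convex (ent F Consec F_eq_card')
open Pool.Agent.NPC.Cnt Pool.Agent.W887.LE Pool.Agent.NPC.H549NRed
open Pool.Agent.NPC.H549Convex (LL fp_of_poly upoly_fact ent_poly poly_prod sqB_poly sqB)
open Pool.Agent.NPC.H549PM (alt alt_poly alt_eq)
open Finset (Icc mem_Icc)

/-- positions of the ones of a row -/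
def ones (A : LL) (i : ℕ) : List ℕ := (List.range A.length).filter fun j => ent A i j

/-- first one -/
def lo (A : LL) (i : ℕ) : ℕ := (ones A i).getD 0 0

/-- last one -/
def hi (A : LL) (i : ℕ) : ℕ := (ones A i).getD ((ones A i).length - 1) 0

/-- all rows are nonzero -/
def neB (A : LL) : Bool := (List.range A.length).all fun i => decide (0 < (ones A i).length)

/-- number of fillers in a gap -/
def kf (p : LL × ℕ) : ℕ := 3 * (p.1.length - p.2) + 1

/-- the poset -/
def PO (p : LL × ℕ) : LL := posetOf (ivs p.1.length (kf p) (lo p.1) (hi p.1))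

/-- normalising factor -/
def DK (p : LL × ℕ) : ℕ := ((List.range p.1.length).map fun _ => (kf p).factorial).prod

/-- the queries -/
def qsL (A : LL) : List LL := (List.range (A.length + 1)).map fun t => PO (A, t)

/-- the final computation -/
def postL (p : LL × List ℕ) : ℕ :=
  bif sqB p.1 && neB p.1 then
    alt (p.1.length + 1) (fun t => p.2.getD t 0 / DK (p.1, t)) else 0

theorem mem_ones (A : LL) (i j : ℕ) : j ∈ ones A i ↔ j < A.length ∧ ent A i j = true := by
  simp [ones]

theorem ones_sorted (A : LL) (i : ℕ) : (ones A i).Pairwise (· < ·) := by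
  unfold ones
  exact List.Pairwise.filter _ List.pairwise_lt_range

theorem hi_lt (A : LL) (i : ℕ) (h : 0 < A.length) : hi A i < A.length := by
  unfold hi
  by_cases hc : (ones A i).length - 1 < (ones A i).length
  · rw [List.getD_eq_getElem _ _ hc]
    exact ((mem_ones A i _).1 (List.getElem_mem hc)).1
  · rw [List.getD_eq_default _ _ (not_lt.1 hc)]
    exact h

theorem lo_le_hi (A : LL) (i : ℕ) : lo A i ≤ hi A i := by
  unfold lo hi
  rcases Nat.lt_or_ge 1 (ones A i).length with h | h
  · rw [List.getD_eq_getElem _ _ (by omega), List.getD_eq_getElem _ _ (by omega)]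
    exact (List.pairwise_iff_getElem.1 (ones_sorted A i) 0 ((ones A i).length - 1) (by omega)
      (by omega) (by omega)).le
  · rw [show (ones A i).length - 1 = 0 by omega]

theorem mem_interval (A : LL) (hA : ∀ r ∈ A, Consec r) (i : ℕ) (hi' : i < A.length)
    (hne : 0 < (ones A i).length) (j : ℕ) :
    j ∈ Icc (lo A i) (hi A i) ↔ j < A.length ∧ ent A i j = true := by
  rw [mem_Icc]
  have hlo : lo A i ∈ ones A i := by
    unfold lo
    rw [List.getD_eq_getElem _ _ hne]
    exact List.getElem_mem _
  have hhi : hi A i ∈ ones A i := by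
    unfold hi
    rw [List.getD_eq_getElem _ _ (by omega)]
    exact List.getElem_mem _
  constructor
  · rintro ⟨h1, h2⟩
    rw [mem_ones] at hlo hhi
    refine ⟨by omega, ?_⟩
    have hrow : A[i] ∈ A := List.getElem_mem hi'
    have hE : ∀ k, ent A i k = true ↔ A[i][k]? = some true := by
      intro k
      unfold Pool.Agent.H549R2.Convex.ent
      rw [List.getD_eq_getElem _ _ hi', List.getD_eq_getElem?_getD]
      cases A[i][k]? with
      | none => simp
      | some b => simp
    rw [hE]
    exact hA _ hrow _ _ _ h1 h2 ((hE _).1 hlo.2) ((hE _).1 hhi.2)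
  · rintro h
    rw [← mem_ones] at h
    obtain ⟨k, hk, rfl⟩ := List.mem_iff_getElem.1 h
    have hs := List.pairwise_iff_getElem.1 (ones_sorted A i)
    unfold lo hi
    rw [List.getD_eq_getElem _ _ hne, List.getD_eq_getElem _ _ (by omega)]
    constructor
    · rcases Nat.eq_zero_or_pos k with rfl | h0
      · exact le_rfl
      · exact (hs 0 k hne hk h0).le
    · rcases Nat.lt_or_ge k ((ones A i).length - 1) with h0 | h0
      · exact (hs k _ hk (by omega) h0).le
      · have : k = (ones A i).length - 1 := by omega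
        subst this
        exact le_rfl

theorem PO_good (A : LL) (t : ℕ) : Good (PO (A, t)) := by
  exact good_ivs (by simp [kf]) _ _ (fun i hi' => hi_lt A i (Nat.zero_lt_of_lt hi'))
    (fun i _ => lo_le_hi A i)

theorem DK_eq (p : LL × ℕ) : DK p = (kf p).factorial ^ p.1.length := by
  rw [DK, List.map_const', List.prod_replicate, List.length_range]

theorem DK_pos (p : LL × ℕ) : 0 < DK p := by
  rw [DK_eq]
  positivity

theorem numLE_PO (A : LL) (t : ℕ) : numLE (PO (A, t)) = DK (A, t) *
    V (fun i : Fin A.length => Icc (lo A i.val) (hi A i.val)) (A.length - t) := by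
  rw [PO, numLE_ivs _ _ (fun i hi' => hi_lt A i (Nat.zero_lt_of_lt hi'))
    (fun i _ => lo_le_hi A i), V, Finset.mul_sum]
  refine Finset.sum_congr rfl fun g _ => ?_
  have h : ∏ s ∈ Finset.range A.length, ((kf (A, t)).factorial *
      (3 * (A.length - t) + 2).ascFactorial (cnt g s)) = (kf (A, t)).factorial ^ A.length *
      ∏ s ∈ Finset.range A.length, (3 * (A.length - t) + 2).ascFactorial (cnt g s) := by
    rw [Finset.prod_mul_distrib, Finset.prod_const, Finset.card_range]
  rw [DK_eq]
  refine Eq.trans ?_ h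
  refine Finset.prod_congr rfl fun s _ => ?_
  rw [← Nat.factorial_mul_ascFactorial]
  rfl

theorem F_eq_inj (A : LL) (hsq : ∀ r ∈ A, r.length = A.length) (hA : ∀ r ∈ A, Consec r)
    (hne : ∀ i < A.length, 0 < (ones A i).length) :
    F A = ((Fintype.piFinset (fun i : Fin A.length => Icc (lo A i.val) (hi A i.val))).filter
      (fun g => Function.Injective g)).card := by
  rw [F_eq_card' A hsq A.length rfl]
  refine Finset.card_bij (fun σ _ => fun i => (σ i).val) ?_ ?_ ?_
  · intro σ hσ
    rw [Finset.mem_filter] at hσ ⊢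
    refine ⟨Fintype.mem_piFinset.2 fun i => ?_, fun i j h => σ.injective (Fin.ext h)⟩
    rw [mem_interval A hA i.val i.2 (hne _ i.2)]
    exact ⟨(σ i).2, hσ.2 i⟩
  · intro σ _ τ _ h
    ext i
    exact congrFun h i
  · intro g hg
    rw [Finset.mem_filter] at hg
    have h1 : ∀ i, g i < A.length ∧ ent A i.val (g i) = true := fun i =>
      (mem_interval A hA i.val i.2 (hne _ i.2) _).1 (Fintype.mem_piFinset.1 hg.1 i)
    have hinj : Function.Injective (fun i : Fin A.length => (⟨g i, (h1 i).1⟩ : Fin A.length)) :=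
      fun i j h => hg.2 (Fin.mk.inj_iff.1 h)
    refine ⟨Equiv.ofBijective _ (Finite.injective_iff_bijective.1 hinj), ?_, ?_⟩
    · rw [Finset.mem_filter]
      exact ⟨Finset.mem_univ _, fun i => (h1 i).2⟩
    · rfl

theorem postL_correct (A : LL) (hA : ∀ r ∈ A, Consec r) :
    postL (A, (qsL A).map numLE) = F A := by
  unfold postL
  simp only
  cases hs : sqB A with
  | false =>
    rw [Bool.false_and, cond_false]
    have : ¬ ∀ r ∈ A, r.length = A.length := by
      intro h
      rw [Pool.Agent.NPC.H549Convex.sqB, Bool.eq_false_iff] at hs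
      apply hs
      rw [List.all_eq_true]
      intro r hr
      simp [h r hr]
    rw [F, if_neg this]
  | true =>
    have hsq : ∀ r ∈ A, r.length = A.length := by
      intro r hr
      rw [Pool.Agent.NPC.H549Convex.sqB, List.all_eq_true] at hs
      simpa using hs r hr
    rw [Bool.true_and]
    cases hn : neB A with
    | false =>
      rw [cond_false, F_eq_card' A hsq A.length rfl]
      symm
      rw [Finset.card_eq_zero, Finset.filter_eq_empty_iff]
      intro σ _ h
      rw [neB, List.all_eq_false] at hn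
      obtain ⟨i, hi1, hi2⟩ := hn
      rw [List.mem_range] at hi1
      simp only [decide_eq_true_eq, not_lt, Nat.le_zero, List.length_eq_zero_iff] at hi2
      have h1 : (σ ⟨i, hi1⟩).val ∈ ones A i := (mem_ones A i _).2 ⟨(σ ⟨i, hi1⟩).2, h ⟨i, hi1⟩⟩
      rw [hi2] at h1
      simp at h1
    | true =>
      rw [cond_true]
      have hne : ∀ i < A.length, 0 < (ones A i).length := by
        intro i hi1
        rw [neB, List.all_eq_true] at hn
        simpa using hn i (List.mem_range.2 hi1)
      apply alt_eq
      rw [F_eq_inj A hsq hA hne, ← ident]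
      · refine Finset.sum_congr rfl fun t ht => ?_
        rw [Finset.mem_range] at ht
        congr 2
        by_cases h : t ≤ A.length
        · rw [if_pos h]
          have h1 : ((qsL A).map numLE).getD t 0 = numLE (PO (A, t)) := by
            have hlen : t < ((qsL A).map numLE).length := by simp [qsL]; omega
            rw [List.getD_eq_getElem _ _ hlen, List.getElem_map]
            simp only [qsL, List.getElem_map, List.getElem_range]
          rw [h1, numLE_PO, Nat.mul_div_cancel_left _ (DK_pos _)]
        · rw [if_neg h]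
          rw [List.getD_eq_default _ _ (by simp [qsL]; omega), Nat.zero_div]
      · intro i t ht
        exact ((mem_interval A hA i.val i.2 (hne _ i.2) _).1 ht).1

section Polynomial

theorem ones_poly : Poly (fun p : LL × ℕ => ones p.1 p.2) :=
  Poly.filter (p := fun (p : LL × ℕ) j => ent p.1 p.2 j) (Poly.range_length (Poly.fst Poly.id))
    (ent_poly.comp (f := fun q : (LL × ℕ) × ℕ => (q.1.1, q.1.2, q.2))
      (Poly.pair (Poly.fst (Poly.fst Poly.id)) (Poly.pair
        (Poly.snd (Poly.fst Poly.id)) (Poly.snd Poly.id))))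

theorem lo_poly : Poly (fun p : LL × ℕ => lo p.1 p.2) :=
  Poly.getD ones_poly (Poly.const 0) (Poly.const 0)

theorem hi_poly : Poly (fun p : LL × ℕ => hi p.1 p.2) :=
  Poly.getD ones_poly (Poly.sub (Poly.length ones_poly) (Poly.const 1)) (Poly.const 0)

theorem neB_poly : Poly neB :=
  Poly.all (p := fun (A : LL) i => decide (0 < (ones A i).length)) (Poly.range_length Poly.id)
    (Poly.decide_lt (Poly.const 0) (Poly.length ones_poly))

theorem kf_upoly : UPoly kf := by
  refine UPoly.of_le (Poly.add (Poly.mul (Poly.const 3) (Poly.sub (Poly.length (Poly.fst Poly.id))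
    (Poly.snd Poly.id))) (Poly.const 1)) (UPoly.add (UPoly.mul (UPoly.const 3)
      (UPoly.length (Poly.fst Poly.id))) (UPoly.const 1)) fun p => ?_
  have h : kf p = 3 * (p.1.length - p.2) + 1 := rfl
  omega

theorem posetOf_poly : Poly posetOf := by
  refine Poly.map (F := fun (L : List (ℕ × ℕ)) u => L.map fun v => decide (u.2 < v.1)) Poly.id ?_
  refine Poly.map (F := fun (q : List (ℕ × ℕ) × (ℕ × ℕ)) v => decide (q.2.2 < v.1))
    (Poly.fst Poly.id) ?_
  exact Poly.decide_lt (Poly.snd (Poly.snd (Poly.fst Poly.id))) (Poly.fst (Poly.snd Poly.id))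

theorem PO_poly : Poly PO := by
  refine posetOf_poly.comp (f := fun p : LL × ℕ => ivs p.1.length (kf p) (lo p.1) (hi p.1)) ?_
  have hn : UPoly (fun p : LL × ℕ => p.1.length) := UPoly.length (Poly.fst Poly.id)
  have h1 : Poly (fun p : LL × ℕ => (List.range (p.1.length + 1)).map fun t => (2 * t, 2 * t)) := by
    refine Poly.map (F := fun (_ : LL × ℕ) t => (2 * t, 2 * t))
      (UPoly.add hn (UPoly.const 1)).range ?_
    have h : Poly (fun q : (LL × ℕ) × ℕ => 2 * q.2) := Poly.mul (Poly.const 2) (Poly.snd Poly.id)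
    exact Poly.pair h h
  have h2 : Poly (fun p : LL × ℕ => (List.range p.1.length).flatMap fun t =>
      (List.range (kf p)).map fun _ => (2 * t + 1, 2 * t + 1)) := by
    refine Poly.flatMap (F := fun (p : LL × ℕ) t => (List.range (kf p)).map
      fun _ => (2 * t + 1, 2 * t + 1)) hn.range ?_
    refine Poly.map (F := fun (q : (LL × ℕ) × ℕ) _ => (2 * q.2 + 1, 2 * q.2 + 1))
      (kf_upoly.comp (Poly.fst Poly.id)).range ?_
    have h : Poly (fun q : ((LL × ℕ) × ℕ) × ℕ => 2 * q.1.2 + 1) :=
      Poly.succ (Poly.mul (Poly.const 2) (Poly.snd (Poly.fst Poly.id)))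
    exact Poly.pair h h
  have h3 : Poly (fun p : LL × ℕ => (List.range p.1.length).map fun i =>
      (2 * lo p.1 i + 1, 2 * hi p.1 i + 1)) := by
    refine Poly.map (F := fun (p : LL × ℕ) i => (2 * lo p.1 i + 1, 2 * hi p.1 i + 1)) hn.range ?_
    have hp : Poly (fun q : (LL × ℕ) × ℕ => (q.1.1, q.2)) :=
      Poly.pair (Poly.fst (Poly.fst Poly.id)) (Poly.snd Poly.id)
    have h4 : Poly (fun q : (LL × ℕ) × ℕ => lo q.1.1 q.2) :=
      lo_poly.comp (f := fun q : (LL × ℕ) × ℕ => (q.1.1, q.2)) hp
    have h5 : Poly (fun q : (LL × ℕ) × ℕ => hi q.1.1 q.2) :=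
      hi_poly.comp (f := fun q : (LL × ℕ) × ℕ => (q.1.1, q.2)) hp
    have h6 : Poly (fun q : (LL × ℕ) × ℕ => 2 * lo q.1.1 q.2 + 1) :=
      Poly.succ (Poly.mul (Poly.const 2) h4)
    have h7 : Poly (fun q : (LL × ℕ) × ℕ => 2 * hi q.1.1 q.2 + 1) :=
      Poly.succ (Poly.mul (Poly.const 2) h5)
    exact Poly.pair h6 h7
  exact Poly.append h1 (Poly.append h2 h3)

theorem DK_poly : Poly DK := by
  refine poly_prod (l := fun p : LL × ℕ => (List.range p.1.length).map
    fun _ => (kf p).factorial) ?_
  exact Poly.map (F := fun (p : LL × ℕ) _ => (kf p).factorial)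
    (UPoly.length (Poly.fst Poly.id)).range (upoly_fact (kf_upoly.comp (Poly.fst Poly.id)))

theorem qsL_poly : Poly qsL :=
  Poly.map (F := fun (A : LL) t => PO (A, t))
    (UPoly.add (UPoly.length Poly.id) (UPoly.const 1)).range PO_poly

theorem postL_poly : Poly postL := by
  have hq : UPoly (fun p : LL × List ℕ => p.1.length + 1) :=
    UPoly.add (UPoly.length (Poly.fst Poly.id)) (UPoly.const 1)
  have h1 : Poly (fun z : (LL × List ℕ) × ℕ => z.1.2.getD z.2 0 / DK (z.1.1, z.2)) :=
    Poly.div (Poly.getD (Poly.snd (Poly.fst Poly.id)) (Poly.snd Poly.id) (Poly.const 0))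
      (DK_poly.comp (f := fun z : (LL × List ℕ) × ℕ => (z.1.1, z.2))
        (Poly.pair (Poly.fst (Poly.fst Poly.id)) (Poly.snd Poly.id)))
  exact Poly.cond (Poly.and (sqB_poly.comp (Poly.fst Poly.id)) (neB_poly.comp (Poly.fst Poly.id)))
    (alt_poly (g := fun (p : LL × List ℕ) t => p.2.getD t 0 / DK (p.1, t)) hq h1) (Poly.const 0)

end Polynomial

/-- the permanent of matrices with consecutive ones reduces to counting linear extensions -/
theorem nred_le : NRed (fun A : LL => ∀ r ∈ A, Consec r) F Good numLE :=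
  ⟨qsL, postL, qsL_poly, postL_poly, fun A hA => ⟨fun B hB => by
    rw [qsL, List.mem_map] at hB
    obtain ⟨t, _, rfl⟩ := hB
    exact PO_good A t, postL_correct A hA⟩⟩

/-- counting satisfying assignments reduces to counting linear extensions -/
theorem nred_sat_le : NRed (fun _ : CNF ℕ => True) (fun φ => satCount φ) Good numLE :=
  (nred_sat.comp nred_consec).comp nred_le

end Pool.Agent.NPC.LE887
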